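import Mathlib

/-!
Spectral radius bounds for holomorphic functions with values in a complex Banach algebra
(no assumption on the norm of `1`): a three circles inequality, a Liouville type statement, and a
local maximum principle.
-/

open Filter Topology Complex

namespace Pool.Agent.Lib.Kaplansky48

variable {B : Type*} [NormedRing B] [NormedAlgebra ℂ B]

/-- All spectral values of `x` have modulus at most `m`. -/
def SR (x : B) (m : ℝ) : Prop := ∀ μ ∈ spectrum ℂ x, ‖μ‖ ≤ m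

theorem SR.mono {x : B} {m m' : ℝ} (h : SR x m) (hm : m ≤ m') : SR x m' :=
  fun μ hμ => (h μ hμ).trans hm

theorem SR.of_forall_gt {x : B} {m : ℝ} (h : ∀ m' > m, SR x m') : SR x m :=
  fun μ hμ => le_of_forall_gt_imp_ge_of_dense (fun m' hm' => h m' hm' μ hμ)

theorem SR.isUnit_sub {x : B} {m : ℝ} (h : SR x m) {μ : ℂ} (hμ : m < ‖μ‖) :
    IsUnit (algebraMap ℂ B μ - x) := by
  by_contra hc
  exact absurd (h μ hc) (not_le.mpr hμ)

theorem SR.of_isUnit {x : B} {m : ℝ} (h : ∀ μ : ℂ, m < ‖μ‖ → IsUnit (algebraMap ℂ B μ - x)) :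
    SR x m := by
  intro μ hμ
  by_contra hc
  exact hμ (h μ (not_le.mp hc))

theorem SR.smul {x : B} {m : ℝ} (h : SR x m) (c : ℂ) : SR (c • x) (‖c‖ * m) := by
  intro μ hμ
  by_cases hc : c = 0
  · subst hc
    rw [zero_smul] at hμ
    rcases subsingleton_or_nontrivial B with hB | hB
    · exact absurd (isUnit_of_subsingleton _) hμ
    · have : μ = 0 := by
        by_contra hne
        apply hμ
        change IsUnit (algebraMap ℂ B μ - 0)
        rw [sub_zero]
        exact (isUnit_iff_ne_zero.mpr hne).map (algebraMap ℂ B)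
      simp [this]
  · have h1 : c⁻¹ * μ ∈ spectrum ℂ x := by
      intro hu
      apply hμ
      change IsUnit (algebraMap ℂ B (c⁻¹ * μ) - x) at hu
      change IsUnit (algebraMap ℂ B μ - c • x)
      have e : algebraMap ℂ B μ - c • x = algebraMap ℂ B c * (algebraMap ℂ B (c⁻¹ * μ) - x) := by
        rw [mul_sub, ← map_mul, mul_inv_cancel_left₀ hc, Algebra.smul_def]
      rw [e]
      exact ((isUnit_iff_ne_zero.mpr hc).map (algebraMap ℂ B)).mul hu
    have h2 := h _ h1
    rw [norm_mul, norm_inv, inv_mul_le_iff₀ (norm_pos_iff.mpr hc)] at h2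
    exact h2

theorem SR.neg {x : B} {m : ℝ} (h : SR x m) : SR (-x) m := by
  have := h.smul (-1)
  simpa using this

theorem SR.map {C : Type*} [NormedRing C] [NormedAlgebra ℂ C] {x : B} {m : ℝ} (h : SR x m)
    (π : B →ₐ[ℂ] C) : SR (π x) m := fun μ hμ => h μ (AlgHom.spectrum_apply_subset π x hμ)

theorem SR_neg_iff {x : B} {m : ℝ} : SR (-x) m ↔ SR x m :=
  ⟨fun h => by simpa using h.neg, fun h => h.neg⟩

variable [CompleteSpace B]

theorem SR.of_norm {x : B} {m : ℝ} (h : ‖x‖ ≤ m) : SR x m := by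
  apply SR.of_isUnit
  intro μ hμ
  have hm : 0 ≤ m := (norm_nonneg _).trans h
  have hμ0 : μ ≠ 0 := norm_pos_iff.mp (hm.trans_lt hμ)
  have e : algebraMap ℂ B μ - x = algebraMap ℂ B μ * (1 - μ⁻¹ • x) := by
    rw [mul_sub, mul_one, Algebra.algebraMap_eq_smul_one, smul_mul_smul_comm, one_mul,
      mul_inv_cancel₀ hμ0, one_smul]
  rw [e]
  refine ((isUnit_iff_ne_zero.mpr hμ0).map (algebraMap ℂ B)).mul ?_
  refine (Units.oneSub (μ⁻¹ • x) ?_).isUnit
  rw [norm_smul, norm_inv, inv_mul_lt_iff₀ (norm_pos_iff.mpr hμ0)]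
  linarith

theorem SR.of_pow {x : B} {m : ℝ} {n : ℕ} (hn : n ≠ 0) (hm : 0 ≤ m)
    (h : ‖x ^ n‖ ≤ m ^ n) : SR x m := by
  intro μ hμ
  have h1 : μ ^ n ∈ spectrum ℂ (x ^ n) := spectrum.pow_mem_pow x n hμ
  have h2 := SR.of_norm h _ h1
  rw [norm_pow] at h2
  exact (pow_le_pow_iff_left₀ (norm_nonneg _) hm hn).mp h2

theorem SR.eventually_pow {x : B} {m m' : ℝ} (h : SR x m) (hm : 0 ≤ m)
    (hm' : m < m') : ∀ᶠ n : ℕ in atTop, ‖x ^ n‖ < m' ^ n := by
  rcases subsingleton_or_nontrivial B with hB | hB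
  · filter_upwards with n
    rw [Subsingleton.elim (x ^ n) 0, norm_zero]
    exact pow_pos (hm.trans_lt hm') n
  obtain ⟨M, hM⟩ : ∃ M : NNReal, (M : ℝ) = m' := ⟨⟨m', hm.trans hm'.le⟩, rfl⟩
  have h1 : spectralRadius ℂ x < (M : ENNReal) := by
    apply spectrum.spectralRadius_lt_of_forall_lt
    intro z hz
    rw [← NNReal.coe_lt_coe, hM]
    simpa using (h z hz).trans_lt hm'
  have h2 := (spectrum.pow_nnnorm_pow_one_div_tendsto_nhds_spectralRadius x).eventually_lt_const h1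
  filter_upwards [h2, eventually_ne_atTop 0] with n hn hn0
  have h3 : ((‖x ^ n‖₊ : ENNReal) ^ (1 / n : ℝ)) ^ (n : ℝ) < (M : ENNReal) ^ (n : ℝ) :=
    ENNReal.rpow_lt_rpow hn (by positivity)
  rw [← ENNReal.rpow_mul, one_div, inv_mul_cancel₀ (by exact_mod_cast hn0), ENNReal.rpow_one,
    ENNReal.rpow_natCast, ← ENNReal.coe_pow, ENNReal.coe_lt_coe, ← NNReal.coe_lt_coe] at h3
  rw [← hM]
  simpa using h3

/-- Upper semicontinuity of the spectral radius. -/
theorem SR.eventually {x : B} {m m' : ℝ} (h : SR x m) (hm : 0 ≤ m) (hm' : m < m') :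
    ∀ᶠ y in 𝓝 x, SR y m' := by
  obtain ⟨n, hn, hn0⟩ := ((h.eventually_pow hm hm').and (eventually_ne_atTop 0)).exists
  have hopen : IsOpen {w : B | ‖w ^ n‖ < m' ^ n} :=
    isOpen_lt (by fun_prop) continuous_const
  filter_upwards [hopen.mem_nhds hn] with y hy
  exact SR.of_pow hn0 (hm.trans hm'.le) (le_of_lt hy)

/-- Dini type argument: on a compact set, spectral radius at most `m` gives, for `m' > m`, a uniform
bound on the powers `2 ^ k`. -/
theorem exists_pow_le_of_compact {f : ℂ → B} {K : Set ℂ} (hK : IsCompact K)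
    (hf : ContinuousOn f K) {m m' : ℝ} (hm : 0 ≤ m) (hm' : m < m') (h : ∀ z ∈ K, SR (f z) m) :
    ∃ k₀ : ℕ, ∀ k ≥ k₀, ∀ z ∈ K, ‖f z ^ (2 ^ k)‖ ≤ m' ^ (2 ^ k) := by
  have hpos : 0 ≤ m' := hm.trans hm'.le
  have step : ∀ (x : B) (k : ℕ), ‖x ^ (2 ^ k)‖ ≤ m' ^ (2 ^ k) →
      ‖x ^ (2 ^ (k + 1))‖ ≤ m' ^ (2 ^ (k + 1)) := by
    intro x k hk
    have e1 : x ^ (2 ^ (k + 1)) = x ^ (2 ^ k) * x ^ (2 ^ k) := by
      rw [← pow_add]; congr 1; ring
    have e2 : m' ^ (2 ^ (k + 1)) = m' ^ (2 ^ k) * m' ^ (2 ^ k) := by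
      rw [← pow_add]; congr 1; ring
    rw [e1, e2]
    exact (norm_mul_le _ _).trans (mul_le_mul hk hk (norm_nonneg _) (by positivity))
  have step' : ∀ (x : B) (k l : ℕ), k ≤ l → ‖x ^ (2 ^ k)‖ ≤ m' ^ (2 ^ k) →
      ‖x ^ (2 ^ l)‖ ≤ m' ^ (2 ^ l) := by
    intro x k l hkl hk
    induction l, hkl using Nat.le_induction with
    | base => exact hk
    | succ l _ ih => exact step x l ih
  have h1 : ∀ z ∈ K, ∃ k : ℕ, ‖f z ^ (2 ^ k)‖ < m' ^ (2 ^ k) := by
    intro z hz
    have h2 := (h z hz).eventually_pow hm hm'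
    have h3 : Tendsto (fun k : ℕ => 2 ^ k) atTop atTop := tendsto_pow_atTop_atTop_of_one_lt one_lt_two
    exact (h3.eventually h2).exists
  choose! κ hκ using h1
  obtain ⟨t, ht, hcov⟩ := hK.elim_nhdsWithin_subcover
    (fun z => {w | ‖f w ^ (2 ^ κ z)‖ < m' ^ (2 ^ κ z)})
    (fun z hz => by
      have hc : ContinuousWithinAt (fun w => ‖f w ^ (2 ^ κ z)‖) K z :=
        (((hf z hz).pow _).norm)
      exact hc.eventually_lt_const (hκ z hz))
  refine ⟨t.sup κ, fun k hk z hz => ?_⟩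
  obtain ⟨w, hw, hzw⟩ := Set.mem_iUnion₂.mp (hcov hz)
  exact step' (f z) (κ w) k ((Finset.le_sup hw).trans hk) (le_of_lt hzw)

/-- Three circles inequality for the spectral radius of a holomorphic function on a disc. -/
theorem three_circles {f : ℂ → B} {R : ℝ} (hf : DifferentiableOn ℂ f (Metric.ball 0 R))
    {l u m₁ m₂ n₁ n₂ : ℝ} (hlu : l < u) (huR : Real.exp u < R)
    (hm₁ : 0 ≤ m₁) (hm₂ : 0 ≤ m₂) (h1 : m₁ < n₁) (h2 : m₂ < n₂)
    (hl : ∀ z : ℂ, ‖z‖ = Real.exp l → SR (f z) m₁) (hu : ∀ z : ℂ, ‖z‖ = Real.exp u → SR (f z) m₂)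
    {z : ℂ} (hz1 : l ≤ z.re) (hz2 : z.re ≤ u) :
    SR (f (exp z)) (n₁ ^ (1 - (z.re - l) / (u - l)) * n₂ ^ ((z.re - l) / (u - l))) := by
  have hn₁ : 0 ≤ n₁ := hm₁.trans h1.le
  have hn₂ : 0 ≤ n₂ := hm₂.trans h2.le
  have hsph : ∀ r : ℝ, {z : ℂ | ‖z‖ = r} = Metric.sphere (0 : ℂ) r := by
    intro r; ext z; simp
  have hsub : ∀ r : ℝ, r ≤ Real.exp u → {z : ℂ | ‖z‖ = r} ⊆ Metric.ball 0 R := by
    intro r hr z hz
    have : ‖z‖ = r := hz
    simp only [Metric.mem_ball, dist_zero_right]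
    linarith
  obtain ⟨k₁, hk₁⟩ := exists_pow_le_of_compact (K := {z : ℂ | ‖z‖ = Real.exp l})
    (by rw [hsph]; exact isCompact_sphere _ _)
    (hf.continuousOn.mono (hsub _ (Real.exp_le_exp.mpr hlu.le))) hm₁ h1 hl
  obtain ⟨k₂, hk₂⟩ := exists_pow_le_of_compact (K := {z : ℂ | ‖z‖ = Real.exp u})
    (by rw [hsph]; exact isCompact_sphere _ _) (hf.continuousOn.mono (hsub _ le_rfl)) hm₂ h2 hu
  set k := max k₁ k₂
  set N := 2 ^ k with hN
  have hN0 : N ≠ 0 := by positivity
  -- the function on the strip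
  set S : Set ℂ := {w : ℂ | w.re < Real.log R} with hS
  have hR : 0 < R := (Real.exp_pos u).trans huR
  have hSopen : IsOpen S := isOpen_lt Complex.continuous_re continuous_const
  have hmaps : Set.MapsTo (fun w : ℂ => exp w) S (Metric.ball 0 R) := by
    intro w hw
    have hw' : w.re < Real.log R := hw
    simp only [Metric.mem_ball, dist_zero_right, Complex.norm_exp]
    calc Real.exp w.re < Real.exp (Real.log R) := Real.exp_lt_exp.mpr hw'
      _ = R := Real.exp_log hR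
  have hF : DifferentiableOn ℂ (fun w : ℂ => f (exp w) ^ N) S :=
    (hf.comp (Complex.differentiable_exp.differentiableOn) hmaps).pow N
  have huS : u < Real.log R := by rwa [Real.lt_log_iff_exp_lt hR]
  have hclos : closure (HadamardThreeLines.verticalStrip l u) ⊆ S := by
    have hcl : IsClosed {w : ℂ | w.re ≤ u} := isClosed_le Complex.continuous_re continuous_const
    have hsub2 : HadamardThreeLines.verticalStrip l u ⊆ {w : ℂ | w.re ≤ u} := by
      intro w hw
      exact le_of_lt hw.2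
    intro w hw
    have : w.re ≤ u := closure_minimal hsub2 hcl hw
    exact this.trans_lt huS
  have hbound : BddAbove ((norm ∘ fun w : ℂ => f (exp w) ^ N) ''
      HadamardThreeLines.verticalClosedStrip l u) := by
    have hc : IsCompact (Metric.closedBall (0 : ℂ) (Real.exp u)) := isCompact_closedBall _ _
    have hcont : ContinuousOn (fun w : ℂ => ‖f w ^ N‖) (Metric.closedBall (0 : ℂ) (Real.exp u)) :=
      ((hf.continuousOn.mono (Metric.closedBall_subset_ball huR)).pow N).norm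
    obtain ⟨C, hC⟩ := (hc.bddAbove_image hcont)
    refine ⟨C, ?_⟩
    rintro _ ⟨w, hw, rfl⟩
    apply hC
    refine ⟨exp w, ?_, rfl⟩
    have : w.re ≤ u := hw.2
    simpa [Complex.norm_exp] using this
  have key := HadamardThreeLines.norm_le_interp_of_mem_verticalClosedStrip'
    (f := fun w : ℂ => f (exp w) ^ N) (z := z) (a := n₁ ^ N) (b := n₂ ^ N) hlu ⟨hz1, hz2⟩
    (hF.mono hclos).diffContOnCl hbound
    (fun w hw => hk₁ k (le_max_left _ _) (exp w) (by
      have : w.re = l := hw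
      simp [Complex.norm_exp, this]))
    (fun w hw => hk₂ k (le_max_right _ _) (exp w) (by
      have : w.re = u := hw
      simp [Complex.norm_exp, this]))
  apply SR.of_pow hN0 (by positivity)
  refine key.trans (le_of_eq ?_)
  rw [mul_pow, ← Real.rpow_natCast, ← Real.rpow_natCast, ← Real.rpow_natCast, ← Real.rpow_natCast,
    ← Real.rpow_mul hn₁, ← Real.rpow_mul hn₂, ← Real.rpow_mul hn₁, ← Real.rpow_mul hn₂]
  congr 2 <;> ring

/-- Liouville type statement: if an entire function has bounded spectral radius, then the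
spectral radius is bounded everywhere by its value at `0`. -/
theorem liouville_SR {f : ℂ → B} (hf : Differentiable ℂ f) {M m : ℝ}
    (hM : 0 ≤ M) (hm : 0 ≤ m) (hb : ∀ z, SR (f z) M) (h0 : SR (f 0) m) (z : ℂ) : SR (f z) m := by
  by_cases hz : z = 0
  · rw [hz]; exact h0
  apply SR.of_forall_gt
  intro m' hm'
  -- choose intermediate values
  obtain ⟨m₁, hm1, hm1'⟩ := exists_between hm'
  obtain ⟨m₂, hm2, hm2'⟩ := exists_between hm1'
  have hm₁0 : 0 < m₁ := hm.trans_lt hm1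
  have hm₂0 : 0 < m₂ := hm₁0.trans hm2
  -- near `0` the spectral radius is at most `m₁`
  have hev0 : ∀ᶠ w in 𝓝 (0 : ℂ), SR (f w) m₁ :=
    (hf.continuous.tendsto 0).eventually (h0.eventually hm hm1)
  obtain ⟨ε, hε, hball⟩ := Metric.eventually_nhds_iff.mp hev0
  have hzpos : 0 < ‖z‖ := norm_pos_iff.mpr hz
  obtain ⟨δ, hδ, hδε, hδz⟩ : ∃ δ : ℝ, 0 < δ ∧ δ < ε ∧ δ < ‖z‖ :=
    ⟨min ε ‖z‖ / 2, by positivity,
      (half_lt_self (lt_min hε hzpos)).trans_le (min_le_left _ _),
      (half_lt_self (lt_min hε hzpos)).trans_le (min_le_right _ _)⟩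
  set l := Real.log δ
  have hl : Real.exp l = δ := Real.exp_log hδ
  have hzl : l < Real.log ‖z‖ := Real.log_lt_log hδ hδz
  have hsl : ∀ w : ℂ, ‖w‖ = Real.exp l → SR (f w) m₁ := by
    intro w hw
    rw [hl] at hw
    exact hball (by simpa [hw] using hδε)
  have hexp : exp (Complex.log z) = z := Complex.exp_log hz
  have hre : (Complex.log z).re = Real.log ‖z‖ := Complex.log_re z
  -- let the outer radius tend to infinity
  have hlim : Tendsto (fun u : ℝ => m₂ ^ (1 - (Real.log ‖z‖ - l) / (u - l)) *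
      (M + 1) ^ ((Real.log ‖z‖ - l) / (u - l))) atTop (𝓝 (m₂ ^ (1 - (0:ℝ)) * (M + 1) ^ (0:ℝ))) := by
    have h1 : Tendsto (fun u : ℝ => (Real.log ‖z‖ - l) / (u - l)) atTop (𝓝 0) :=
      Tendsto.div_atTop tendsto_const_nhds (tendsto_atTop_add_const_right _ _ tendsto_id)
    have h2 : Tendsto (fun u : ℝ => 1 - (Real.log ‖z‖ - l) / (u - l)) atTop (𝓝 (1 - 0)) :=
      tendsto_const_nhds.sub h1
    exact ((Real.continuousAt_const_rpow hm₂0.ne').tendsto.comp h2).mul
      ((Real.continuousAt_const_rpow (by positivity)).tendsto.comp h1)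
  rw [sub_zero, Real.rpow_one, Real.rpow_zero, mul_one] at hlim
  have hev := hlim.eventually_lt_const hm2'
  obtain ⟨u, hu1, hu2⟩ := (hev.and (eventually_gt_atTop (Real.log ‖z‖))).exists
  have key := three_circles (R := Real.exp u + 1) hf.differentiableOn (l := l) (u := u)
    (m₁ := m₁) (m₂ := M) (n₁ := m₂) (n₂ := M + 1)
    (hzl.trans hu2) (by linarith) hm₁0.le hM hm2 (by linarith) hsl (fun w _ => hb w)
    (z := Complex.log z)
    (by rw [hre]; exact hzl.le) (by rw [hre]; exact hu2.le)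
  rw [hexp, hre] at key
  exact key.mono hu1.le

/-- Liouville, symmetric form. -/
theorem liouville_SR_iff {f : ℂ → B} (hf : Differentiable ℂ f) {M : ℝ}
    (hM : 0 ≤ M) (hb : ∀ z, SR (f z) M) {m : ℝ} (hm : 0 ≤ m) (z w : ℂ) :
    SR (f z) m ↔ SR (f w) m := by
  have main : ∀ a b : ℂ, SR (f a) m → SR (f b) m := by
    intro a b h
    have h1 := liouville_SR (f := fun t => f (t + a)) (by fun_prop) hM hm (fun t => hb _)
      (by simpa using h) (b - a)
    simpa using h1
  exact ⟨main z w, main w z⟩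

/-- Local maximum principle: if on a disc the spectral radius is bounded by its value at the
centre, then near the centre it is equal to its value at the centre. -/
theorem local_max_SR {f : ℂ → B} {R : ℝ} (hf : DifferentiableOn ℂ f (Metric.ball 0 R))
    (hle : ∀ z ∈ Metric.ball (0 : ℂ) R, ∀ m, 0 ≤ m → SR (f 0) m → SR (f z) m)
    {z : ℂ} (hz : ‖z‖ < R / 3) {m : ℝ} (hm : 0 ≤ m) (h : SR (f z) m) : SR (f 0) m := by
  by_cases hz0 : z = 0
  · rwa [hz0] at h
  have hzpos : 0 < ‖z‖ := norm_pos_iff.mpr hz0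
  have hR : 0 < R := by linarith
  -- the infimum of the bounds at `0`
  set S : Set ℝ := {s : ℝ | 0 ≤ s ∧ SR (f 0) s} with hS
  have hSne : S.Nonempty := ⟨‖f 0‖, norm_nonneg _, SR.of_norm le_rfl⟩
  have hSbdd : BddBelow S := ⟨0, fun s hs => hs.1⟩
  set r := sInf S with hr
  have hr0 : 0 ≤ r := le_csInf hSne fun s hs => hs.1
  have hrS : SR (f 0) r := by
    apply SR.of_forall_gt
    intro m' hm'
    obtain ⟨s, hs, hsm⟩ := exists_lt_of_csInf_lt hSne hm'
    exact hs.2.mono hsm.le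
  by_contra hcon
  have hmr : m < r := by
    by_contra hc
    exact hcon (hrS.mono (not_lt.mp hc))
  have hrpos : 0 < r := hm.trans_lt hmr
  obtain ⟨m₁, hm1, hm1r⟩ := exists_between hmr
  have hm₁0 : 0 < m₁ := hm.trans_lt hm1
  -- centre at `z`
  set g : ℂ → B := fun t => f (t + z) with hg
  have hgd : DifferentiableOn ℂ g (Metric.ball 0 (2 * R / 3)) := by
    apply hf.comp (by fun_prop)
    intro t ht
    simp only [Metric.mem_ball, dist_zero_right] at ht ⊢
    calc ‖t + z‖ ≤ ‖t‖ + ‖z‖ := norm_add_le _ _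
      _ < 2 * R / 3 + R / 3 := add_lt_add ht hz
      _ = R := by ring
  have hgc : ContinuousAt g 0 :=
    (hgd.continuousOn.continuousAt (Metric.isOpen_ball.mem_nhds (by simpa using by positivity)))
  have hg0 : SR (g 0) m := by simpa [hg] using h
  have hev0 : ∀ᶠ w in 𝓝 (0 : ℂ), SR (g w) m₁ := hgc.eventually (hg0.eventually hm hm1)
  obtain ⟨ε, hε, hball⟩ := Metric.eventually_nhds_iff.mp hev0
  obtain ⟨δ, hδ, hδε, hδz⟩ : ∃ δ : ℝ, 0 < δ ∧ δ < ε ∧ δ < ‖z‖ :=
    ⟨min ε ‖z‖ / 2, by positivity,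
      (half_lt_self (lt_min hε hzpos)).trans_le (min_le_left _ _),
      (half_lt_self (lt_min hε hzpos)).trans_le (min_le_right _ _)⟩
  set l := Real.log δ with hldef
  set u := Real.log (R / 2) with hudef
  have hl : Real.exp l = δ := Real.exp_log hδ
  have hu : Real.exp u = R / 2 := Real.exp_log (by positivity)
  have hzl : l < Real.log ‖z‖ := Real.log_lt_log hδ hδz
  have hzu : Real.log ‖z‖ < u := Real.log_lt_log hzpos (by linarith)
  set θ : ℝ := (Real.log ‖z‖ - l) / (u - l) with hθ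
  have hθ1 : θ < 1 := by
    rw [hθ, div_lt_one (by linarith)]
    linarith
  have hθ0 : 0 < θ := by
    rw [hθ]
    exact div_pos (by linarith) (by linarith)
  -- the bound obtained for all slightly larger values
  have hbd : ∀ n₁ n₂ : ℝ, m₁ < n₁ → r < n₂ → r ≤ n₁ ^ (1 - θ) * n₂ ^ θ := by
    intro n₁ n₂ hn1 hn2
    have key := three_circles hgd (l := l) (u := u) (m₁ := m₁) (m₂ := r) (n₁ := n₁) (n₂ := n₂)
      (hzl.trans hzu) (by rw [hu]; linarith) hm₁0.le hr0 hn1 hn2
      (fun w hw => hball (by rw [hl] at hw; simpa [hw] using hδε))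
      (fun w hw => by
        rw [hu] at hw
        apply hle _ _ r hr0 hrS
        simp only [Metric.mem_ball, dist_zero_right]
        calc ‖w + z‖ ≤ ‖w‖ + ‖z‖ := norm_add_le _ _
          _ < R / 2 + R / 3 := by rw [hw]; linarith
          _ ≤ R := by linarith)
      (z := Complex.log (-z))
      (by rw [Complex.log_re, norm_neg]; exact hzl.le)
      (by rw [Complex.log_re, norm_neg]; exact hzu.le)
    rw [Complex.exp_log (neg_ne_zero.mpr hz0), Complex.log_re, norm_neg] at key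
    have e : g (-z) = f 0 := by simp [hg]
    rw [e] at key
    exact csInf_le hSbdd ⟨by
      have : 0 ≤ n₁ := hm₁0.le.trans hn1.le
      have : 0 ≤ n₂ := hr0.trans hn2.le
      positivity, key⟩
  -- pass to the limit
  have hlim : Tendsto (fun t : ℝ => (m₁ + t) ^ (1 - θ) * (r + t) ^ θ) (𝓝[>] 0)
      (𝓝 ((m₁ + 0) ^ (1 - θ) * (r + 0) ^ θ)) := by
    apply tendsto_nhdsWithin_of_tendsto_nhds
    have h1 : Tendsto (fun t : ℝ => m₁ + t) (𝓝 0) (𝓝 (m₁ + 0)) :=
      tendsto_const_nhds.add tendsto_id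
    have h2 : Tendsto (fun t : ℝ => r + t) (𝓝 0) (𝓝 (r + 0)) :=
      tendsto_const_nhds.add tendsto_id
    exact (h1.rpow_const (Or.inr (by linarith))).mul (h2.rpow_const (Or.inr hθ0.le))
  have hfin : r ≤ (m₁ + 0) ^ (1 - θ) * (r + 0) ^ θ := by
    refine ge_of_tendsto hlim (eventually_mem_nhdsWithin.mono fun t ht => ?_)
    have ht' : (0 : ℝ) < t := ht
    exact hbd _ _ (by linarith) (by linarith)
  rw [add_zero, add_zero] at hfin
  have hlt : m₁ ^ (1 - θ) * r ^ θ < r ^ (1 - θ) * r ^ θ := by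
    apply mul_lt_mul_of_pos_right
    · exact Real.rpow_lt_rpow hm₁0.le hm1r (by linarith)
    · exact Real.rpow_pos_of_pos hrpos _
  rw [← Real.rpow_add hrpos, sub_add_cancel, Real.rpow_one] at hlt
  linarith

end Pool.Agent.Lib.Kaplansky48
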