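import Mathlib
import Pool.Agent.Lib.Kaplansky48.SR

/-!
The group of unital spectral radius preserving operators on a Banach algebra and its
complex Lie algebra (only the facts needed).
-/

set_option linter.unusedSectionVars false

open Filter Topology Complex

namespace Pool.Agent.Lib.Kaplansky48

section Exp

variable {𝔸 : Type*} [NormedRing 𝔸] [NormedAlgebra ℂ 𝔸] [CompleteSpace 𝔸]

theorem cexp_continuous : Continuous (NormedSpace.exp : 𝔸 → 𝔸) := by
  let _ : NormedAlgebra ℚ 𝔸 := NormedAlgebra.restrictScalars ℚ ℂ 𝔸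
  exact NormedSpace.exp_continuous

theorem cexp_isUnit (x : 𝔸) : IsUnit (NormedSpace.exp x) := by
  let _ : NormedAlgebra ℚ 𝔸 := NormedAlgebra.restrictScalars ℚ ℂ 𝔸
  exact NormedSpace.isUnit_exp x

theorem cexp_mul_neg (x : 𝔸) : NormedSpace.exp x * NormedSpace.exp (-x) = 1 := by
  let _ : NormedAlgebra ℚ 𝔸 := NormedAlgebra.restrictScalars ℚ ℂ 𝔸
  rw [← NormedSpace.exp_add_of_commute (Commute.refl x).neg_right, add_neg_cancel,
    NormedSpace.exp_zero]

theorem cexp_neg_mul (x : 𝔸) : NormedSpace.exp (-x) * NormedSpace.exp x = 1 := by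
  have := cexp_mul_neg (-x)
  rwa [neg_neg] at this

theorem cexp_nsmul (n : ℕ) (x : 𝔸) : NormedSpace.exp (n • x) = NormedSpace.exp x ^ n := by
  let _ : NormedAlgebra ℚ 𝔸 := NormedAlgebra.restrictScalars ℚ ℂ 𝔸
  exact NormedSpace.exp_nsmul n x

theorem cexp_hasDerivAt (x : 𝔸) :
    HasDerivAt (fun z : ℂ => NormedSpace.exp (z • x)) x 0 := by
  have h1 := hasDerivAt_exp_smul_const x (0 : ℂ)
  simpa using h1

theorem cexp_differentiable (x : 𝔸) : Differentiable ℂ (fun z : ℂ => NormedSpace.exp (z • x)) :=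
  fun z => (hasDerivAt_exp_smul_const x z).differentiableAt

/-- If `F` has derivative `K` at `0` and `F 0 = 1` then `n (F (c/n) - 1) → c K`. -/
theorem tendsto_slope {F : ℂ → 𝔸} {K : 𝔸} (hF : HasDerivAt F K 0) (h0 : F 0 = 1) (c : ℂ) :
    Tendsto (fun n : ℕ => (n : ℂ) • (F (c / n) - 1)) atTop (𝓝 (c • K)) := by
  by_cases hc : c = 0
  · subst hc
    simp [h0]
  · have h1 := hF.tendsto_slope
    have h2 : Tendsto (fun n : ℕ => c / (n : ℂ)) atTop (𝓝[≠] 0) := by
      apply tendsto_nhdsWithin_of_tendsto_nhds_of_eventually_within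
      · exact tendsto_const_div_atTop_nhds_zero_nat c
      · filter_upwards [eventually_ne_atTop 0] with n hn
        have : (n : ℂ) ≠ 0 := by exact_mod_cast hn
        simp [hc, this]
    have h3 := (h1.comp h2).const_smul c
    refine h3.congr' ?_
    filter_upwards [eventually_ne_atTop 0] with n hn
    have hn' : (n : ℂ) ≠ 0 := by exact_mod_cast hn
    simp only [Function.comp, slope_def_module, sub_zero, h0, smul_smul]
    congr 1
    field_simp

theorem norm_pow_sub_pow_le' (P Q : 𝔸) {M : ℝ} (hM : 1 ≤ M) (h1 : ‖(1 : 𝔸)‖ ≤ 1) (hP : ‖P‖ ≤ M)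
    (hQ : ‖Q‖ ≤ M) (k : ℕ) : ‖Q ^ k‖ ≤ M ^ k ∧ ‖Q ^ k - P ^ k‖ ≤ k * M ^ k * ‖Q - P‖ := by
  have hM0 : 0 ≤ M := zero_le_one.trans hM
  induction k with
  | zero => simp [h1]
  | succ k ih =>
    obtain ⟨ih1, ih2⟩ := ih
    refine ⟨?_, ?_⟩
    · rw [pow_succ, pow_succ]
      exact (norm_mul_le _ _).trans (mul_le_mul ih1 hQ (norm_nonneg _) (by positivity))
    · have e : Q ^ (k + 1) - P ^ (k + 1) = Q ^ k * (Q - P) + (Q ^ k - P ^ k) * P := by
        rw [pow_succ, pow_succ]; noncomm_ring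
      rw [e]
      have h2 : M ^ k ≤ M ^ (k + 1) := pow_le_pow_right₀ hM (Nat.le_succ k)
      calc ‖Q ^ k * (Q - P) + (Q ^ k - P ^ k) * P‖
          ≤ ‖Q ^ k‖ * ‖Q - P‖ + ‖Q ^ k - P ^ k‖ * ‖P‖ :=
            (norm_add_le _ _).trans (add_le_add (norm_mul_le _ _) (norm_mul_le _ _))
        _ ≤ M ^ (k + 1) * ‖Q - P‖ + (k * M ^ k * ‖Q - P‖) * M := by
            gcongr
            exact ih1.trans h2
        _ = ((k + 1 : ℕ) : ℝ) * M ^ (k + 1) * ‖Q - P‖ := by push_cast; ring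

theorem tendsto_pow_exp (h1 : ‖(1 : 𝔸)‖ ≤ 1) {Q : ℕ → 𝔸} {K : 𝔸}
    (hQ : Tendsto (fun n : ℕ => (n : ℂ) • (Q n - 1)) atTop (𝓝 K)) :
    Tendsto (fun n : ℕ => Q n ^ n) atTop (𝓝 (NormedSpace.exp K)) := by
  -- the comparison sequence
  set P : ℕ → 𝔸 := fun n => NormedSpace.exp ((1 / (n : ℂ)) • K) with hP
  have hPs : Tendsto (fun n : ℕ => (n : ℂ) • (P n - 1)) atTop (𝓝 ((1 : ℂ) • K)) :=
    tendsto_slope (cexp_hasDerivAt K) (by simp) 1
  rw [one_smul] at hPs
  have hPn : ∀ n : ℕ, n ≠ 0 → P n ^ n = NormedSpace.exp K := by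
    intro n hn
    have hn' : (n : ℂ) ≠ 0 := by exact_mod_cast hn
    simp only [hP]
    rw [← cexp_nsmul, ← Nat.cast_smul_eq_nsmul ℂ, smul_smul, mul_one_div, div_self hn', one_smul]
  have hdiff : Tendsto (fun n : ℕ => (n : ℝ) * ‖Q n - P n‖) atTop (𝓝 0) := by
    have h2 := (hQ.sub hPs).norm
    rw [sub_self, norm_zero] at h2
    refine h2.congr fun n => ?_
    rw [← smul_sub, norm_smul, Complex.norm_natCast]
    congr 2
    abel
  -- bounds
  set C := ‖K‖ + 1 with hC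
  have hb : ∀ R : ℕ → 𝔸, Tendsto (fun n : ℕ => (n : ℂ) • (R n - 1)) atTop (𝓝 K) →
      ∀ᶠ n : ℕ in atTop, ‖R n‖ ≤ 1 + C / n := by
    intro R hR
    have h2 : ∀ᶠ n : ℕ in atTop, ‖(n : ℂ) • (R n - 1)‖ < C :=
      hR.norm.eventually_lt_const (by rw [hC]; linarith)
    filter_upwards [h2, eventually_gt_atTop 0] with n hn hn0
    have hn' : (0 : ℝ) < n := by exact_mod_cast hn0
    rw [norm_smul, Complex.norm_natCast] at hn
    have h3 : ‖R n - 1‖ ≤ C / n := by
      rw [le_div_iff₀ hn']; linarith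
    calc ‖R n‖ = ‖1 + (R n - 1)‖ := by congr 1; abel
      _ ≤ ‖(1 : 𝔸)‖ + ‖R n - 1‖ := norm_add_le _ _
      _ ≤ 1 + C / n := add_le_add h1 h3
  have hC0 : 0 ≤ C := by positivity
  have hest : ∀ᶠ n : ℕ in atTop, ‖Q n ^ n - NormedSpace.exp K‖ ≤
      Real.exp C * ((n : ℝ) * ‖Q n - P n‖) := by
    filter_upwards [hb Q hQ, hb P hPs, eventually_gt_atTop 0] with n hn1 hn2 hn0
    have hn' : (0 : ℝ) < n := by exact_mod_cast hn0
    have h3 := (norm_pow_sub_pow_le' (P n) (Q n) (M := 1 + C / n)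
      (by have : 0 ≤ C / n := by positivity
          linarith) h1 hn2 hn1 n).2
    rw [hPn n hn0.ne'] at h3
    refine h3.trans ?_
    have h4 : (1 + C / n) ^ n ≤ Real.exp C := by
      have h5 : 1 + C / n ≤ Real.exp (C / n) := by
        have := Real.add_one_le_exp (C / n)
        linarith
      calc (1 + C / n) ^ n ≤ Real.exp (C / n) ^ n := by
            apply pow_le_pow_left₀ (by positivity) h5
        _ = Real.exp C := by
            rw [← Real.exp_nat_mul]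
            congr 1
            field_simp
    calc (n : ℝ) * (1 + C / n) ^ n * ‖Q n - P n‖
        = (1 + C / n) ^ n * ((n : ℝ) * ‖Q n - P n‖) := by ring
      _ ≤ Real.exp C * ((n : ℝ) * ‖Q n - P n‖) := by gcongr
  rw [tendsto_iff_norm_sub_tendsto_zero]
  refine squeeze_zero' (Eventually.of_forall fun n => norm_nonneg _) hest ?_
  have := hdiff.const_mul (Real.exp C)
  rwa [mul_zero] at this

end Exp

section Group

variable {B : Type*} [NormedRing B] [NormedAlgebra ℂ B] [CompleteSpace B]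

theorem comp_ap (φ ψ : B →L[ℂ] B) (x : B) : (φ * ψ) x = φ (ψ x) := rfl

theorem zsm (K : B →L[ℂ] B) : (0 : ℂ) • K = 0 := zero_smul ℂ K

/-- Unital invertible operators preserving the spectral radius. -/
def InG (φ : B →L[ℂ] B) : Prop :=
  φ 1 = 1 ∧ IsUnit φ ∧ ∀ (x : B) (m : ℝ), 0 ≤ m → (SR (φ x) m ↔ SR x m)

theorem norm_one_le : ‖(1 : B →L[ℂ] B)‖ ≤ 1 := ContinuousLinearMap.norm_id_le

theorem InG.one : InG (1 : B →L[ℂ] B) := ⟨rfl, isUnit_one, fun _ _ _ => Iff.rfl⟩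

theorem InG.mul {φ ψ : B →L[ℂ] B} (hφ : InG φ) (hψ : InG ψ) : InG (φ * ψ) := by
  refine ⟨?_, hφ.2.1.mul hψ.2.1, fun x m hm => ?_⟩
  · rw [comp_ap, hψ.1, hφ.1]
  · rw [comp_ap, hφ.2.2 _ m hm, hψ.2.2 x m hm]

theorem InG.pow {φ : B →L[ℂ] B} (hφ : InG φ) (n : ℕ) : InG (φ ^ n) := by
  induction n with
  | zero => rw [pow_zero]; exact InG.one
  | succ n ih => rw [pow_succ]; exact ih.mul hφ

theorem InG.inv {φ : B →L[ℂ] B} (hφ : InG φ) : InG (Ring.inverse φ) := by
  have h1 : φ * Ring.inverse φ = 1 := Ring.mul_inverse_cancel _ hφ.2.1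
  have h2 : Ring.inverse φ * φ = 1 := Ring.inverse_mul_cancel _ hφ.2.1
  have h1' : ∀ x, φ (Ring.inverse φ x) = x := fun x => by
    rw [← comp_ap, h1]; rfl
  have h2' : ∀ x, Ring.inverse φ (φ x) = x := fun x => by
    rw [← comp_ap, h2]; rfl
  refine ⟨?_, hφ.2.1.ringInverse, fun x m hm => ?_⟩
  · have := h2' 1
    rwa [hφ.1] at this
  · rw [← hφ.2.2 _ m hm, h1']

theorem InG.of_mul_eq_one {φ ψ : B →L[ℂ] B} (hφ : InG φ) (h1 : φ * ψ = 1) : InG ψ := by
  have h2 : ψ = Ring.inverse φ := by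
    calc ψ = (Ring.inverse φ * φ) * ψ := by rw [Ring.inverse_mul_cancel _ hφ.2.1, one_mul]
      _ = Ring.inverse φ := by rw [mul_assoc, h1, mul_one]
  rw [h2]; exact hφ.inv

/-- `InG` is closed (inside the invertible operators). -/
theorem InG.closed {ι : Type*} {l : Filter ι} [l.NeBot] {φ : ι → B →L[ℂ] B} {ψ : B →L[ℂ] B}
    (h : ∀ᶠ n in l, InG (φ n)) (ht : Tendsto φ l (𝓝 ψ)) (hu : IsUnit ψ) : InG ψ := by
  have hev : ∀ (χ : ι → B →L[ℂ] B) (θ : B →L[ℂ] B), Tendsto χ l (𝓝 θ) → ∀ x : B,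
      Tendsto (fun n => χ n x) l (𝓝 (θ x)) := by
    intro χ θ hχ x
    exact ((ContinuousLinearMap.apply ℂ B x).continuous.tendsto θ).comp hχ
  have key : ∀ (χ : ι → B →L[ℂ] B) (θ : B →L[ℂ] B), (∀ᶠ n in l, InG (χ n)) →
      Tendsto χ l (𝓝 θ) → ∀ (x : B) (m : ℝ), 0 ≤ m → SR (θ x) m → SR x m := by
    intro χ θ hχ hχt x m hm hx
    apply SR.of_forall_gt
    intro m' hm'
    have h1 := (hev χ θ hχt x).eventually (hx.eventually hm hm')
    obtain ⟨n, hn1, hn2⟩ := (h1.and hχ).exists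
    exact (hn2.2.2 x m' (hm.trans hm'.le)).mp hn1
  have hinv : Tendsto (fun n => Ring.inverse (φ n)) l (𝓝 (Ring.inverse ψ)) :=
    (NormedRing.inverse_continuousAt hu.unit).tendsto.comp ht
  refine ⟨?_, hu, fun x m hm => ⟨key φ ψ h ht x m hm, fun hx => ?_⟩⟩
  · have h1 : Tendsto (fun n => φ n 1) l (𝓝 (ψ 1)) := hev φ ψ ht 1
    have h2 : Tendsto (fun n => φ n 1) l (𝓝 1) := by
      refine tendsto_const_nhds.congr' ?_
      filter_upwards [h] with n hn
      exact hn.1.symm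
    exact tendsto_nhds_unique h1 h2
  · have h1 : Ring.inverse ψ (ψ x) = x := by
      rw [← comp_ap, Ring.inverse_mul_cancel _ hu]; rfl
    apply key (fun n => Ring.inverse (φ n)) (Ring.inverse ψ) (h.mono fun n hn => hn.inv) hinv _ m hm
    rw [h1]; exact hx

theorem InG.exp_of_tendsto {Q : ℕ → B →L[ℂ] B} {K : B →L[ℂ] B} (hQ : ∀ᶠ n in atTop, InG (Q n))
    (ht : Tendsto (fun n : ℕ => (n : ℂ) • (Q n - 1)) atTop (𝓝 K)) : InG (NormedSpace.exp K) :=
  InG.closed (hQ.mono fun n hn => hn.pow n) (tendsto_pow_exp norm_one_le ht) (cexp_isUnit K)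

variable (B) in
/-- The complex Lie algebra of the group of unital spectral radius preserving operators. -/
def gLie : Submodule ℂ (B →L[ℂ] B) where
  carrier := {H | ∀ c : ℂ, InG (NormedSpace.exp (c • H))}
  zero_mem' := fun c => by
    rw [smul_zero, NormedSpace.exp_zero]; exact InG.one
  add_mem' := by
    intro H K hH hK c
    have hF : HasDerivAt (fun z : ℂ => NormedSpace.exp (z • H) * NormedSpace.exp (z • K))
        (H + K) 0 := by
      have h := (cexp_hasDerivAt H).mul (cexp_hasDerivAt K)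
      refine h.congr_deriv ?_
      rw [zsm, zsm, NormedSpace.exp_zero, mul_one, one_mul]
    exact InG.exp_of_tendsto (Eventually.of_forall fun n => (hH _).mul (hK _))
      (tendsto_slope hF (by rw [zsm, zsm, NormedSpace.exp_zero, mul_one]) c)
  smul_mem' := by
    intro a H hH c
    rw [smul_smul]; exact hH _

theorem mem_gLie {H : B →L[ℂ] B} : H ∈ gLie B ↔ ∀ c : ℂ, InG (NormedSpace.exp (c • H)) := Iff.rfl

theorem mem_gLie_of_hasDerivAt {F : ℂ → B →L[ℂ] B} {K : B →L[ℂ] B} (hF : HasDerivAt F K 0)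
    (h0 : F 0 = 1) (h : ∀ᶠ z in 𝓝 0, InG (F z)) : K ∈ gLie B := by
  intro c
  refine InG.exp_of_tendsto (Q := fun n : ℕ => F (c / n)) ?_ (tendsto_slope hF h0 c)
  exact (tendsto_const_div_atTop_nhds_zero_nat c).eventually h

theorem isClosed_gLie : IsClosed (gLie B : Set (B →L[ℂ] B)) := by
  rw [← isSeqClosed_iff_isClosed]
  intro u H hu hH c
  refine InG.closed (l := atTop) (Eventually.of_forall fun n => hu n c) ?_ (cexp_isUnit _)
  exact (cexp_continuous.tendsto _).comp (hH.const_smul c)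

theorem gLie_apply_one {H : B →L[ℂ] B} (hH : H ∈ gLie B) : H 1 = 0 := by
  have h1 : HasDerivAt (fun z : ℂ => (NormedSpace.exp (z • H) : B →L[ℂ] B) 1) (H 1) 0 :=
    (ContinuousLinearMap.apply ℂ B (1 : B)).hasFDerivAt.comp_hasDerivAt 0 (cexp_hasDerivAt H)
  have h2 : (fun z : ℂ => (NormedSpace.exp (z • H) : B →L[ℂ] B) 1) = fun _ => (1 : B) := by
    funext z
    exact (hH z).1
  rw [h2] at h1
  exact h1.unique (hasDerivAt_const _ _)

end Group

end Pool.Agent.Lib.Kaplansky48
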