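import Mathlib
import Pool.Agent.Lib.Kaplansky48.Lie

/-!
The principal component of the group of invertible elements, and its invariance under the
exponentials of the Lie algebra `gLie`.  The second part contains the first closure property of
`gLie`.
-/

set_option linter.unusedSectionVars false

open Filter Topology Complex

namespace Pool.Agent.Lib.Kaplansky48

variable {B : Type*} [NormedRing B] [NormedAlgebra ℂ B] [CompleteSpace B]

variable (B) in
/-- The principal component of the invertible elements. -/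
def Inv0 : Set B := connectedComponentIn {x : B | IsUnit x} 1

theorem one_mem_Inv0 : (1 : B) ∈ Inv0 B := mem_connectedComponentIn isUnit_one

theorem isPreconnected_Inv0 : IsPreconnected (Inv0 B) := isPreconnected_connectedComponentIn

theorem isUnit_of_mem_Inv0 {x : B} (hx : x ∈ Inv0 B) : IsUnit x :=
  connectedComponentIn_subset {x : B | IsUnit x} 1 hx

theorem isOpen_Inv0 : IsOpen (Inv0 B) := by
  let _ : NormedSpace ℝ B := NormedSpace.restrictScalars ℝ ℂ B
  exact Units.isOpen.connectedComponentIn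

/-- A preconnected set of invertible elements meeting `Inv0` is contained in `Inv0`. -/
theorem subset_Inv0 {S : Set B} (hS : IsPreconnected S) (hu : ∀ x ∈ S, IsUnit x) {y : B}
    (hy : y ∈ S) (hy0 : y ∈ Inv0 B) : S ⊆ Inv0 B := by
  have h1 := hS.subset_connectedComponentIn hy (F := {x : B | IsUnit x}) hu
  have h2 : connectedComponentIn {x : B | IsUnit x} 1 = connectedComponentIn {x : B | IsUnit x} y :=
    connectedComponentIn_eq hy0
  rw [← h2] at h1
  exact h1

theorem mem_Inv0_of_closure {x : B} (hx : x ∈ closure (Inv0 B)) (hu : IsUnit x) :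
    x ∈ Inv0 B := by
  let _ : NormedSpace ℝ B := NormedSpace.restrictScalars ℝ ℂ B
  have hopen : IsOpen (connectedComponentIn {x : B | IsUnit x} x) :=
    Units.isOpen.connectedComponentIn
  have hmem : x ∈ connectedComponentIn {x : B | IsUnit x} x := mem_connectedComponentIn hu
  obtain ⟨y, hy1, hy2⟩ := mem_closure_iff.mp hx _ hopen hmem
  exact subset_Inv0 (isPreconnected_connectedComponentIn)
    (fun z hz => connectedComponentIn_subset {x : B | IsUnit x} x hz) hy1 hy2 hmem

theorem algebraMap_mem_Inv0 {z : ℂ} (hz : z ≠ 0) : algebraMap ℂ B z ∈ Inv0 B := by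
  have h1 : IsPreconnected ({0}ᶜ : Set ℂ) :=
    (isConnected_compl_singleton_of_one_lt_rank (by simp [Complex.rank_real_complex]) 0).isPreconnected
  have h2 : IsPreconnected (algebraMap ℂ B '' ({0}ᶜ : Set ℂ)) :=
    h1.image _ (algebraMapCLM ℂ B).continuous.continuousOn
  refine subset_Inv0 h2 ?_ (y := 1) ⟨1, by simp, map_one _⟩ one_mem_Inv0 ⟨z, hz, rfl⟩
  rintro _ ⟨w, hw, rfl⟩
  exact (isUnit_iff_ne_zero.mpr hw).map (algebraMap ℂ B)

theorem sub_mem_Inv0 {x : B} {m : ℝ} (hm : 0 ≤ m) (h : SR x m) {z : ℂ} (hz : m < ‖z‖) :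
    algebraMap ℂ B z - x ∈ Inv0 B := by
  have hz0 : z ≠ 0 := norm_pos_iff.mp (hm.trans_lt hz)
  have h1 : IsPreconnected ((fun t : ℝ => algebraMap ℂ B z - (t : ℂ) • x) '' Set.Icc 0 1) := by
    apply isPreconnected_Icc.image
    apply Continuous.continuousOn
    fun_prop
  refine subset_Inv0 h1 ?_ (y := algebraMap ℂ B z) ⟨0, by simp, by simp⟩
    (algebraMap_mem_Inv0 hz0) ⟨1, by simp, by simp⟩
  rintro _ ⟨t, ht, rfl⟩
  have h2 : SR ((t : ℂ) • x) (‖(t : ℂ)‖ * m) := h.smul _
  apply h2.isUnit_sub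
  refine lt_of_le_of_lt ?_ hz
  rw [Complex.norm_real, Real.norm_of_nonneg ht.1]
  calc t * m ≤ 1 * m := mul_le_mul_of_nonneg_right ht.2 hm
    _ = m := one_mul m

/-- `φ v` is invertible for `v` near `1` and `φ` in the group. -/
theorem InG.isUnit_near_one {φ : B →L[ℂ] B} (hφ : InG φ) {v : B} (hv : ‖1 - v‖ < 1) :
    IsUnit (φ v) := by
  have h1 : SR (φ (1 - v)) ‖1 - v‖ :=
    (hφ.2.2 _ _ (norm_nonneg _)).mpr (SR.of_norm le_rfl)
  have h2 := h1.isUnit_sub (μ := 1) (by simpa using hv)
  rwa [map_one, map_sub, hφ.1, sub_sub_cancel] at h2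

theorem isUnit_ringInverse_mul {x y : B} (hx : IsUnit x) (hy : IsUnit y) :
    IsUnit (Ring.inverse x * y) := hx.ringInverse.mul hy

theorem exp_apply_differentiable (H : B →L[ℂ] B) (v : B) :
    Differentiable ℂ (fun c : ℂ => (NormedSpace.exp (c • H) : B →L[ℂ] B) v) := by
  have h1 := cexp_differentiable H
  exact ((ContinuousLinearMap.apply ℂ B v).differentiable).comp h1

theorem exp_zero_smul (H : B →L[ℂ] B) : (NormedSpace.exp ((0 : ℂ) • H) : B →L[ℂ] B) = 1 := by
  rw [zsm, NormedSpace.exp_zero]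

theorem ringInverse_differentiable {f : ℂ → B} (hf : Differentiable ℂ f)
    (hu : ∀ c, IsUnit (f c)) : Differentiable ℂ (fun c => Ring.inverse (f c)) := fun z =>
  DifferentiableAt.comp (g := Ring.inverse) z (differentiableAt_inverse (𝕜 := ℂ) (hu z)) (hf z)

/-- Exponentials of elements of `gLie` send `Inv0` to invertible elements. -/
theorem exp_isUnit_of_mem_Inv0 {H : B →L[ℂ] B} (hH : H ∈ gLie B) {w : B} (hw : w ∈ Inv0 B)
    (c : ℂ) : IsUnit ((NormedSpace.exp (c • H) : B →L[ℂ] B) w) := by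
  set S : Set B := {w | ∀ c : ℂ, IsUnit ((NormedSpace.exp (c • H) : B →L[ℂ] B) w)} with hS
  suffices h : Inv0 B ⊆ interior S from interior_subset (h hw) c
  apply isPreconnected_Inv0.subset_of_closure_inter_subset isOpen_interior
  · refine ⟨1, one_mem_Inv0, ?_⟩
    rw [mem_interior]
    refine ⟨Metric.ball 1 1, fun v hv c => ?_, Metric.isOpen_ball, by simp⟩
    apply (hH c).isUnit_near_one
    rw [mem_ball_iff_norm'] at hv
    exact hv
  · rintro w ⟨hwc, hw0⟩
    have hwu : IsUnit w := isUnit_of_mem_Inv0 hw0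
    set C := ‖Ring.inverse w‖ + 1 with hC
    have hCpos : 0 < C := by positivity
    -- choose `v`
    have hinvc : ContinuousAt (fun v : B => ‖Ring.inverse v‖) w :=
      (NormedRing.inverse_continuousAt hwu.unit).norm
    have hev : ∀ᶠ v in 𝓝 w, ‖Ring.inverse v‖ < C ∧ ‖w - v‖ < 1 / C ∧ IsUnit v := by
      refine (hinvc.eventually_lt_const (by rw [hC]; linarith)).and (Filter.Eventually.and ?_ ?_)
      · have : ContinuousAt (fun v : B => ‖w - v‖) w := by fun_prop
        exact this.eventually_lt_const (by simpa using hCpos)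
      · exact Units.isOpen.mem_nhds hwu
    obtain ⟨v, hvV, hv1, hv2, hvu⟩ :=
      ((mem_closure_iff_frequently.mp hwc).and_eventually hev).exists
    rw [mem_interior]
    refine ⟨Metric.ball v (1 / C), ?_, Metric.isOpen_ball, by rwa [mem_ball_iff_norm]⟩
    intro w' hw' c
    rw [mem_ball_iff_norm] at hw'
    obtain ⟨U, hUS, hUo, hvU⟩ := mem_interior.mp hvV
    obtain ⟨ε, hε, hball⟩ := Metric.isOpen_iff.mp hUo v hvU
    set u := w' - v with hu
    set φ : ℂ → B →L[ℂ] B := fun c => NormedSpace.exp (c • H) with hφ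
    have hφv : ∀ c, IsUnit (φ c v) := fun c => hUS (hball (Metric.mem_ball_self hε)) c
    set g : ℂ → B := fun c => Ring.inverse (φ c v) * φ c u with hg
    have hgd : Differentiable ℂ g :=
      (ringInverse_differentiable (exp_apply_differentiable H v) hφv).mul
        (exp_apply_differentiable H u)
    have hgb : ∀ c, SR (g c) (‖u‖ / ε) := by
      intro c
      apply SR.of_isUnit
      intro z hz
      have hz0 : z ≠ 0 := norm_pos_iff.mp (lt_of_le_of_lt (by positivity) hz)
      have h1 : IsUnit (φ c (v - z⁻¹ • u)) := by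
        apply hUS (hball _) c
        rw [mem_ball_iff_norm, sub_sub_cancel_left, norm_neg, norm_smul, norm_inv,
          inv_mul_lt_iff₀ (norm_pos_iff.mpr hz0)]
        rw [div_lt_iff₀ hε] at hz
        exact hz
      have e : algebraMap ℂ B z - g c =
          algebraMap ℂ B z * (Ring.inverse (φ c v) * φ c (v - z⁻¹ • u)) := by
        rw [map_sub, map_smul, mul_sub, Ring.inverse_mul_cancel _ (hφv c), mul_sub, mul_one,
          mul_smul_comm, Algebra.algebraMap_eq_smul_one, smul_mul_assoc, one_mul, smul_smul,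
          mul_inv_cancel₀ hz0, one_smul]
      rw [e]
      exact ((isUnit_iff_ne_zero.mpr hz0).map (algebraMap ℂ B)).mul
        (isUnit_ringInverse_mul (hφv c) h1)
    have hg0 : g 0 = Ring.inverse v * u := by
      simp only [hg, hφ, exp_zero_smul]
      rfl
    have hSR0 : SR (g 0) ‖Ring.inverse v * u‖ := by
      rw [hg0]; exact SR.of_norm le_rfl
    have hSR := liouville_SR hgd (by positivity) (norm_nonneg _) hgb hSR0 c
    have hlt : ‖Ring.inverse v * u‖ < 1 := by
      calc ‖Ring.inverse v * u‖ ≤ ‖Ring.inverse v‖ * ‖u‖ := norm_mul_le _ _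
        _ ≤ C * ‖u‖ := by gcongr
        _ < C * (1 / C) := by gcongr
        _ = 1 := by field_simp
    have h2 := hSR.isUnit_sub (μ := -1) (by simpa using hlt)
    have e2 : φ c w' = -(φ c v * (algebraMap ℂ B (-1) - g c)) := by
      have e3 : w' = v + u := by rw [hu]; abel
      rw [e3, map_add, mul_sub, hg]
      beta_reduce
      rw [← mul_assoc, Ring.mul_inverse_cancel _ (hφv c), one_mul, map_neg, map_one, mul_neg,
        mul_one]
      abel
    change IsUnit (φ c w')
    rw [e2]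
    exact ((hφv c).mul h2).neg

/-- Left multiplication. -/
noncomputable def Lm : B →L[ℂ] (B →L[ℂ] B) := ContinuousLinearMap.mul ℂ B

theorem Lm_apply (a x : B) : Lm a x = a * x := rfl

theorem mul_smul_op (c : ℂ) (φ ψ : B →L[ℂ] B) : φ * (c • ψ) = c • (φ * ψ) := by
  ext x
  change φ (c • ψ x) = c • φ (ψ x)
  rw [map_smul]

theorem smul_mul_op (c : ℂ) (φ ψ : B →L[ℂ] B) : (c • φ) * ψ = c • (φ * ψ) := rfl

theorem Lm_one : (Lm (1 : B)) = 1 := by
  ext x; simp [Lm_apply]

theorem Lm_mul (a b : B) : Lm (a * b) = Lm a * Lm b := by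
  ext x; simp only [comp_ap, Lm_apply, mul_assoc]

theorem Lm_isUnit {a : B} (ha : IsUnit a) : IsUnit (Lm a) := by
  obtain ⟨u, rfl⟩ := ha
  refine ⟨⟨Lm (u : B), Lm ((u⁻¹ : Bˣ) : B), ?_, ?_⟩, rfl⟩
  · rw [← Lm_mul, Units.mul_inv, Lm_one]
  · rw [← Lm_mul, Units.inv_mul, Lm_one]

/-- The defect of the derivation property. -/
noncomputable def Dl (E : B →L[ℂ] B) (a : B) : B →L[ℂ] B := E * Lm a - Lm (E a) - Lm a * E

theorem Dl_apply (E : B →L[ℂ] B) (a y : B) : Dl E a y = E (a * y) - E a * y - a * E y := rfl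

theorem Dl_aux {E : B →L[ℂ] B} (hE : E ∈ gLie B) {w : B} (hw : ‖1 - w‖ < 1) (hwu : IsUnit w) :
    Lm (Ring.inverse w) * Dl E w ∈ gLie B := by
  set φ : ℂ → B →L[ℂ] B := fun c => NormedSpace.exp (c • E) with hφ
  have hφG : ∀ c, InG (φ c) := fun c => hE c
  have hφw : ∀ c, IsUnit (φ c w) := fun c => (hφG c).isUnit_near_one hw
  set F : ℂ → B →L[ℂ] B := fun c => Lm (Ring.inverse (φ c w)) * φ c * Lm w with hF
  have hFap : ∀ c y, F c y = Ring.inverse (φ c w) * φ c (w * y) := fun c y => rfl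
  have hφ0 : φ 0 = 1 := exp_zero_smul E
  have hF0 : F 0 = 1 := by
    ext y
    rw [hFap, hφ0]
    change Ring.inverse w * (w * y) = y
    rw [← mul_assoc, Ring.inverse_mul_cancel _ hwu, one_mul]
  have hlt : 0 < 1 - ‖1 - w‖ := by linarith
  have hFG : ∀ c, InG (F c) := by
    intro c
    refine ⟨?_, ?_, fun y m hm => ?_⟩
    · rw [hFap, mul_one, Ring.inverse_mul_cancel _ (hφw c)]
    · exact ((Lm_isUnit (hφw c).ringInverse).mul (hφG c).2.1).mul (Lm_isUnit hwu)
    · have hd : Differentiable ℂ (fun c => F c y) := by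
        simp only [hFap]
        exact (ringInverse_differentiable (exp_apply_differentiable E w) hφw).mul
          (exp_apply_differentiable E (w * y))
      have hb : ∀ c, SR (F c y) (‖w‖ * ‖y‖ / (1 - ‖1 - w‖)) := by
        intro c
        apply SR.of_isUnit
        intro z hz
        have hz0 : z ≠ 0 := norm_pos_iff.mp (lt_of_le_of_lt (by positivity) hz)
        have h1 : IsUnit (φ c (w - z⁻¹ • (w * y))) := by
          apply (hφG c).isUnit_near_one
          have e : 1 - (w - z⁻¹ • (w * y)) = (1 - w) + z⁻¹ • (w * y) := by abel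
          rw [e]
          refine lt_of_le_of_lt (norm_add_le _ _) ?_
          have h2 : ‖z⁻¹ • (w * y)‖ < 1 - ‖1 - w‖ := by
            rw [norm_smul, norm_inv, inv_mul_lt_iff₀ (norm_pos_iff.mpr hz0)]
            rw [div_lt_iff₀ hlt] at hz
            exact lt_of_le_of_lt (norm_mul_le _ _) hz
          linarith
        have e : algebraMap ℂ B z - F c y =
            algebraMap ℂ B z * (Ring.inverse (φ c w) * φ c (w - z⁻¹ • (w * y))) := by
          rw [hFap, map_sub, map_smul, mul_sub, Ring.inverse_mul_cancel _ (hφw c), mul_sub,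
            mul_one, mul_smul_comm, Algebra.algebraMap_eq_smul_one, smul_mul_assoc, one_mul,
            smul_smul, mul_inv_cancel₀ hz0, one_smul]
        rw [e]
        exact ((isUnit_iff_ne_zero.mpr hz0).map (algebraMap ℂ B)).mul
          (isUnit_ringInverse_mul (hφw c) h1)
      have h3 := liouville_SR_iff hd (by positivity) hb hm c 0
      rw [h3, hF0]
      rfl
  have hder : HasDerivAt F (E + Lm (Ring.inverse w) * Dl E w) 0 := by
    have h1 : HasDerivAt φ E 0 := cexp_hasDerivAt E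
    have h2 : HasDerivAt (fun c => φ c w) (E w) 0 :=
      (ContinuousLinearMap.apply ℂ B w).hasFDerivAt.comp_hasDerivAt 0 h1
    have h3 : HasDerivAt (fun c => Ring.inverse (φ c w))
        (-(Ring.inverse w * E w * Ring.inverse w)) 0 := by
      obtain ⟨v, hv⟩ := hwu
      have h4 : HasFDerivAt (Ring.inverse : B → B)
          (-ContinuousLinearMap.mulLeftRight ℂ B ↑v⁻¹ ↑v⁻¹) (v : B) :=
        hasFDerivAt_ringInverse (𝕜 := ℂ) v
      have h5 : φ 0 w = (v : B) := by rw [hφ0, ← hv]; rfl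
      rw [← h5] at h4
      have h6 := h4.comp_hasDerivAt (0 : ℂ) h2
      refine h6.congr_deriv ?_
      rw [← hv, Ring.inverse_unit]
      simp [ContinuousLinearMap.mulLeftRight_apply]
    have h7 : HasDerivAt (fun c => Lm (Ring.inverse (φ c w)))
        (Lm (-(Ring.inverse w * E w * Ring.inverse w))) 0 :=
      (Lm (B := B)).hasFDerivAt.comp_hasDerivAt 0 h3
    have h8 := (h7.mul h1).mul_const (Lm w)
    refine h8.congr_deriv ?_
    rw [hφ0]
    ext y
    change (-(Ring.inverse w * E w * Ring.inverse w)) * (w * y) +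
      Ring.inverse ((1 : B →L[ℂ] B) w) * E (w * y) =
      E y + Ring.inverse w * (E (w * y) - E w * y - w * E y)
    have e1 : (1 : B →L[ℂ] B) w = w := rfl
    have e2 : Ring.inverse w * (w * y) = y := by
      rw [← mul_assoc, Ring.inverse_mul_cancel _ hwu, one_mul]
    have e3 : Ring.inverse w * (w * E y) = E y := by
      rw [← mul_assoc, Ring.inverse_mul_cancel _ hwu, one_mul]
    rw [e1, neg_mul, mul_assoc (Ring.inverse w * E w), e2, mul_sub, mul_sub, e3,
      mul_assoc (Ring.inverse w) (E w)]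
    abel
  have hmem := mem_gLie_of_hasDerivAt hder hF0 (Eventually.of_forall hFG)
  have h9 := (gLie B).sub_mem hmem hE
  rwa [add_sub_cancel_left] at h9

theorem Dl_one_sub_smul {E : B →L[ℂ] B} (hE1 : E 1 = 0) (μ : ℂ) (a : B) :
    Dl E (1 - μ • a) = (-μ) • Dl E a := by
  ext y
  change E ((1 - μ • a) * y) - E (1 - μ • a) * y - (1 - μ • a) * E y =
    (-μ) • (E (a * y) - E a * y - a * E y)
  rw [sub_mul, one_mul, map_sub, map_sub, hE1, zero_sub, smul_mul_assoc, map_smul, map_smul,
    sub_mul, one_mul, neg_mul, smul_mul_assoc, smul_mul_assoc, neg_smul, smul_sub, smul_sub]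
  abel

theorem Dl_mem {E : B →L[ℂ] B} (hE : E ∈ gLie B) (a : B) :
    Dl E a ∈ gLie B ∧ Lm a * Dl E a ∈ gLie B ∧ Lm (a * a) * Dl E a ∈ gLie B := by
  have hE1 : E 1 = 0 := gLie_apply_one hE
  set K := Dl E a with hK
  -- invertibility near `0`
  have hcont : ContinuousAt (fun μ : ℂ => 1 - μ • a) 0 := by fun_prop
  have hev1 : ∀ᶠ μ : ℂ in 𝓝 0, ‖μ • a‖ < 1 := by
    have h1 : ContinuousAt (fun μ : ℂ => ‖μ • a‖) 0 := by fun_prop
    exact h1.eventually_lt_const (by simp)
  have hu : ∀ᶠ μ : ℂ in 𝓝 0, IsUnit (1 - μ • a) := by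
    filter_upwards [hev1] with μ hμ
    exact (Units.oneSub (μ • a) hμ).isUnit
  set I : ℂ → B := fun μ => Ring.inverse (1 - μ • a) with hI
  have hI0 : Tendsto I (𝓝[≠] 0) (𝓝 1) := by
    have h1 : ContinuousAt I 0 := by
      have h2 : ContinuousAt (Ring.inverse : B → B) (1 - (0 : ℂ) • a) := by
        have h3 := NormedRing.inverse_continuousAt (1 : Bˣ)
        simpa using h3
      exact ContinuousAt.comp (g := Ring.inverse) h2 hcont
    have h4 : I 0 = 1 := by simp [hI]
    have h5 := h1.tendsto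
    rw [h4] at h5
    exact h5.mono_left nhdsWithin_le_nhds
  have hmem : ∀ᶠ μ : ℂ in 𝓝[≠] 0, Lm (I μ) * K ∈ gLie B := by
    have hne : ∀ᶠ μ : ℂ in 𝓝[≠] 0, μ ≠ 0 := eventually_mem_nhdsWithin
    filter_upwards [hev1.filter_mono nhdsWithin_le_nhds, hu.filter_mono nhdsWithin_le_nhds, hne]
      with μ h1 h2 h3
    have h4 := Dl_aux hE (w := 1 - μ • a) (by rwa [sub_sub_cancel]) h2
    rw [Dl_one_sub_smul hE1, mul_smul_op] at h4
    have h5 := (gLie B).smul_mem (-μ)⁻¹ h4
    rwa [smul_smul, inv_mul_cancel₀ (neg_ne_zero.mpr h3), one_smul] at h5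
  -- limits
  have hlim : ∀ {G : ℂ → B} {b : B}, Tendsto G (𝓝[≠] 0) (𝓝 b) →
      (∀ᶠ μ : ℂ in 𝓝[≠] 0, Lm (G μ) * K ∈ gLie B) → Lm b * K ∈ gLie B := by
    intro G b hG hG2
    have h1 : Tendsto (fun μ => Lm (G μ) * K) (𝓝[≠] 0) (𝓝 (Lm b * K)) :=
      (((Lm (B := B)).continuous.tendsto b).comp hG).mul_const K
    exact isClosed_gLie.mem_of_tendsto h1 hG2
  have hA : Lm 1 * K ∈ gLie B := hlim hI0 hmem
  have hA' : K ∈ gLie B := by rwa [Lm_one, one_mul] at hA
  -- general step
  have hstep : ∀ b : B, (∀ᶠ μ : ℂ in 𝓝[≠] 0, Lm (b * I μ) * K ∈ gLie B) → Lm b * K ∈ gLie B →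
      ∀ᶠ μ : ℂ in 𝓝[≠] 0, Lm (b * a * I μ) * K ∈ gLie B := by
    intro b h1 h2
    have hne : ∀ᶠ μ : ℂ in 𝓝[≠] 0, μ ≠ 0 := eventually_mem_nhdsWithin
    filter_upwards [h1, hu.filter_mono nhdsWithin_le_nhds, hne] with μ h3 h4 h5
    have h6 := (gLie B).smul_mem μ⁻¹ ((gLie B).sub_mem h3 h2)
    have e : b * I μ - b = μ • (b * a * I μ) := by
      have e1 : (1 - μ • a) * I μ = 1 := Ring.mul_inverse_cancel _ h4
      rw [sub_mul, one_mul, smul_mul_assoc] at e1
      have e2 : I μ - 1 = μ • (a * I μ) := by rw [← e1]; abel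
      calc b * I μ - b = b * (I μ - 1) := by rw [mul_sub, mul_one]
        _ = μ • (b * a * I μ) := by rw [e2, mul_smul_comm, mul_assoc]
    have e3 : Lm (b * I μ) * K - Lm b * K = μ • (Lm (b * a * I μ) * K) := by
      rw [← sub_mul, ← map_sub, e, map_smul, smul_mul_op]
    rwa [e3, smul_smul, inv_mul_cancel₀ h5, one_smul] at h6
  have h1 := hstep 1 (by simpa using hmem) hA
  rw [one_mul] at h1
  have h1lim : Lm a * K ∈ gLie B := by
    refine hlim (G := fun μ => a * I μ) ?_ h1
    have := hI0.const_mul a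
    rwa [mul_one] at this
  have h2 := hstep a h1 h1lim
  have h2lim : Lm (a * a) * K ∈ gLie B := by
    refine hlim (G := fun μ => a * a * I μ) ?_ h2
    have := hI0.const_mul (a * a)
    rwa [mul_one] at this
  exact ⟨hA', h1lim, h2lim⟩

end Pool.Agent.Lib.Kaplansky48
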