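import Mathlib

/-!
The algebraic lemma on the linear map `θ` attached to an element `x` of a maximal left ideal.
-/

namespace Pool.Agent.Lib.Kaplansky48

variable {B : Type*} [Ring B] [Algebra ℂ B]

theorem exists_mul_sub_mem {J : Ideal B} (hJ : J.IsMaximal) {y : B} (hy : y ∉ J) (b : B) :
    ∃ v : B, b - v * y ∈ J := by
  have h1 : J ⊔ Ideal.span {y} = ⊤ := by
    apply hJ.out.2
    rw [left_lt_sup]
    intro h
    exact hy (h (Ideal.subset_span rfl))
  have h2 : b ∈ J ⊔ Ideal.span {y} := by rw [h1]; trivial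
  obtain ⟨j, hj, z, hz, rfl⟩ := Submodule.mem_sup.mp h2
  obtain ⟨a, rfl⟩ := Ideal.mem_span_singleton'.mp hz
  exact ⟨a, by simpa using hj⟩

theorem eq_zero_of_vanish {J : Ideal B} (hJ : J.IsMaximal) {f : B →ₗ[ℂ] ℂ}
    (hfJ : ∀ j ∈ J, f j = 0) {y : B} (hy : y ∉ J) (h : ∀ v, f (v * y) = 0) : f = 0 := by
  ext b
  obtain ⟨v, hv⟩ := exists_mul_sub_mem hJ hy b
  have h1 := hfJ _ hv
  rw [map_sub, h v, sub_zero] at h1
  simpa using h1

theorem lemA {J : Ideal B} (hJ : J.IsMaximal) {x : B} (θ : B →ₗ[ℂ] B)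
    {f : B →ₗ[ℂ] ℂ} (hf : f ≠ 0) (hfJ : ∀ j ∈ J, f j = 0) (hfx : ∀ ζ, f (x * ζ) = 0)
    (h1 : ∀ a, f (a * θ a) = 0) (h2 : ∀ a, f (a * a * θ a) = 0) (hxB : ∃ ζ, x * ζ ∉ J)
    (v : B) : θ v ∈ J := by
  have p1 : ∀ u v, f (u * θ v) + f (v * θ u) = 0 := by
    intro u v
    have e := h1 (u + v)
    simp only [map_add, mul_add, add_mul] at e
    linear_combination e - h1 u - h1 v
  have p2 : ∀ u v w, f (u * v * θ w) + f (v * u * θ w) + f (u * w * θ v) + f (w * u * θ v) +
      f (v * w * θ u) + f (w * v * θ u) = 0 := by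
    intro u v w
    have e := h2 (u + v + w)
    have e1 := h2 (u + v)
    have e2 := h2 (u + w)
    have e3 := h2 (v + w)
    simp only [map_add, mul_add, add_mul] at e e1 e2 e3
    linear_combination e - e1 - e2 - e3 + h2 u + h2 v + h2 w
  -- elements killed by `f` on the left
  have hK : ∀ w, (∀ ζ, f (w * ζ) = 0) → θ w ∈ J := by
    intro w hw
    by_contra hc
    apply hf
    apply eq_zero_of_vanish hJ hfJ hc
    intro v
    have := p1 w v
    rw [hw, zero_add] at this
    exact this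
  have hcub : ∀ u v w', f (u * (x * w') * θ v) + f (v * (x * w') * θ u) = 0 := by
    intro u v w'
    have hw : ∀ ζ, f (x * w' * ζ) = 0 := fun ζ => by rw [mul_assoc]; exact hfx _
    have hθ := hK _ hw
    have e := p2 u v (x * w')
    have e1 : f (u * v * θ (x * w')) = 0 := hfJ _ (J.mul_mem_left _ hθ)
    have e2 : f (v * u * θ (x * w')) = 0 := hfJ _ (J.mul_mem_left _ hθ)
    have e3 : f (x * w' * u * θ v) = 0 := by rw [mul_assoc]; exact hw _
    have e4 : f (x * w' * v * θ u) = 0 := by rw [mul_assoc]; exact hw _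
    rw [e1, e2, e3, e4] at e
    linear_combination e
  by_contra hv
  -- first consequence
  have s1 : ∀ ζ, f (v * (x * ζ)) = 0 := by
    intro ζ
    obtain ⟨w', hw'⟩ := exists_mul_sub_mem hJ hv ζ
    have e := hcub v v w'
    have e1 : f (v * (x * w') * θ v) = 0 := by linear_combination e / 2
    have e2 : f (v * (x * (ζ - w' * θ v))) = 0 :=
      hfJ _ (J.mul_mem_left _ (J.mul_mem_left _ hw'))
    have e3 : v * (x * (ζ - w' * θ v)) = v * (x * ζ) - v * (x * w') * θ v := by noncomm_ring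
    rw [e3, map_sub, e1, sub_zero] at e2
    exact e2
  have s2 : ∀ u ζ, f (u * (x * ζ)) = 0 := by
    intro u ζ
    obtain ⟨w', hw'⟩ := exists_mul_sub_mem hJ hv ζ
    have e := hcub u v w'
    have e0 : f (v * (x * w') * θ u) = 0 := by
      have := s1 (w' * θ u)
      rwa [← mul_assoc x, ← mul_assoc v] at this
    have e1 : f (u * (x * w') * θ v) = 0 := by rw [e0, add_zero] at e; exact e
    have e2 : f (u * (x * (ζ - w' * θ v))) = 0 :=
      hfJ _ (J.mul_mem_left _ (J.mul_mem_left _ hw'))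
    have e3 : u * (x * (ζ - w' * θ v)) = u * (x * ζ) - u * (x * w') * θ v := by noncomm_ring
    rw [e3, map_sub, e1, sub_zero] at e2
    exact e2
  obtain ⟨ζ, hζ⟩ := hxB
  exact hf (eq_zero_of_vanish hJ hfJ hζ (fun u => s2 u ζ))

end Pool.Agent.Lib.Kaplansky48
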