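import Mathlib
import Pool.Agent.Lib.Kaplansky48.Comp
import Pool.Agent.Lib.Kaplansky48.LemA

/-!
The representation of a Banach algebra on `B / J`, `J` a maximal left ideal; a density lemma;
Zemanek's characterisation of the radical; invariance of the kernels under `gLie`.
-/

set_option linter.unusedSectionVars false

open Filter Topology Complex

namespace Pool.Agent.Lib.Kaplansky48

universe u

/-- The representation on `B / J`, axiomatised. -/
structure RepData {B : Type u} [NormedRing B] [NormedAlgebra ℂ B] (J : Ideal B)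
    (X : Type u) [NormedAddCommGroup X] [NormedSpace ℂ X] where
  /-- the quotient map -/
  q : B →L[ℂ] X
  /-- the representation -/
  rep : B →ₐ[ℂ] (X →L[ℂ] X)
  cont : Continuous rep
  surj : Function.Surjective q
  act : ∀ b ζ, rep b (q ζ) = q (b * ζ)
  ker : ∀ b, q b = 0 ↔ b ∈ J

variable {B : Type u} [NormedRing B] [NormedAlgebra ℂ B] [CompleteSpace B]

/-- existence of the quotient space -/
theorem exists_quot {J : Ideal B} (hJ : J.IsMaximal) :
    ∃ (X : Type u) (_ : NormedAddCommGroup X) (_ : NormedSpace ℂ X) (_ : CompleteSpace X)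
      (q : B →L[ℂ] X), (∀ b, q b = 0 ↔ b ∈ J) ∧
      ∀ Y : X, ∀ ε > 0, ∃ b, q b = Y ∧ ‖b‖ < ‖Y‖ + ε := by
  set J' : Submodule ℂ B := J.restrictScalars ℂ with hJ'
  have hclosed : IsClosed (J' : Set B) := by
    have : J.IsMaximal := hJ
    exact (Ideal.IsMaximal.isClosed : IsClosed (J : Set B))
  refine ⟨B ⧸ J', inferInstance, inferInstance, inferInstance, J'.mkQL,
    fun z => Submodule.Quotient.mk_eq_zero J', fun Y ε hε => ?_⟩
  obtain ⟨b, hb1, hb2⟩ := Submodule.Quotient.norm_mk_lt (S := J') Y hε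
  exact ⟨b, hb1, hb2⟩

theorem exists_lift {X : Type u} [NormedAddCommGroup X] [NormedSpace ℂ X]
    {Y : Type*} [NormedAddCommGroup Y] [NormedSpace ℂ Y]
    (q : B →L[ℂ] X) (hq : ∀ Y : X, ∀ ε > 0, ∃ b, q b = Y ∧ ‖b‖ < ‖Y‖ + ε)
    (R : B →L[ℂ] Y) (hR : ∀ b, q b = 0 → R b = 0) :
    ∃ T : X →L[ℂ] Y, (∀ b, T (q b) = R b) ∧ ‖T‖ ≤ ‖R‖ := by
  have hsurj : Function.Surjective q := fun Y => by
    obtain ⟨b, hb, _⟩ := hq Y 1 one_pos
    exact ⟨b, hb⟩
  have hdep : ∀ b b', q b = q b' → R b = R b' := by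
    intro b b' h
    have := hR (b - b') (by rw [map_sub, h, sub_self])
    rwa [map_sub, sub_eq_zero] at this
  set g : X → B := Function.surjInv hsurj with hg
  have hgq : ∀ Y, q (g Y) = Y := Function.surjInv_eq hsurj
  let T₀ : X →ₗ[ℂ] Y :=
    { toFun := fun x => R (g x)
      map_add' := fun x y => by
        rw [← map_add]
        apply hdep
        rw [hgq, map_add, hgq, hgq]
      map_smul' := fun c x => by
        rw [RingHom.id_apply, ← map_smul]
        apply hdep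
        rw [hgq, map_smul, hgq] }
  have hT₀ : ∀ b, T₀ (q b) = R b := fun b => hdep _ _ (hgq _)
  have hbd : ∀ x, ‖T₀ x‖ ≤ ‖R‖ * ‖x‖ := by
    intro x
    apply le_of_forall_pos_le_add
    intro ε hε
    obtain ⟨b, hb1, hb2⟩ := hq x (ε / (‖R‖ + 1)) (by positivity)
    rw [← hb1, hT₀]
    calc ‖R b‖ ≤ ‖R‖ * ‖b‖ := R.le_opNorm b
      _ ≤ ‖R‖ * (‖x‖ + ε / (‖R‖ + 1)) := by gcongr
      _ = ‖R‖ * ‖x‖ + (‖R‖ / (‖R‖ + 1)) * ε := by ring
      _ ≤ ‖R‖ * ‖x‖ + 1 * ε := by
        gcongr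
        rw [div_le_one (by positivity)]
        linarith
      _ = ‖R‖ * ‖q b‖ + ε := by rw [hb1, one_mul]
  refine ⟨T₀.mkContinuous ‖R‖ hbd, fun b => hT₀ b, ?_⟩
  exact LinearMap.mkContinuous_norm_le _ (norm_nonneg _) _

theorem exists_rep {J : Ideal B} (hJ : J.IsMaximal) :
    ∃ (X : Type u) (_ : NormedAddCommGroup X) (_ : NormedSpace ℂ X) (_ : CompleteSpace X),
      Nonempty (RepData J X) := by
  obtain ⟨X, i1, i2, i3, q, hq, hq2⟩ := exists_quot hJ
  have hsurj : Function.Surjective q := fun Y => by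
    obtain ⟨b, hb, _⟩ := hq2 Y 1 one_pos
    exact ⟨b, hb⟩
  have hact : ∀ b : B, ∃ T : X →L[ℂ] X, (∀ ζ, T (q ζ) = q (b * ζ)) ∧ ‖T‖ ≤ ‖q‖ * ‖b‖ := by
    intro b
    obtain ⟨T, hT, hTn⟩ := exists_lift q hq2 (q.comp (Lm b)) (fun ζ hζ => by
      change q (b * ζ) = 0
      rw [hq] at hζ ⊢
      exact J.mul_mem_left _ hζ)
    refine ⟨T, hT, hTn.trans ((ContinuousLinearMap.opNorm_comp_le _ _).trans ?_)⟩
    gcongr
    exact ContinuousLinearMap.opNorm_mul_apply_le ℂ B b
  choose T hT hTn using hact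
  have hext : ∀ {S S' : X →L[ℂ] X}, (∀ ζ, S (q ζ) = S' (q ζ)) → S = S' := by
    intro S S' h
    ext x
    obtain ⟨ζ, rfl⟩ := hsurj x
    exact h ζ
  let π : B →ₐ[ℂ] (X →L[ℂ] X) :=
    { toFun := T
      map_one' := hext fun ζ => by rw [hT, one_mul]; rfl
      map_mul' := fun a b => hext fun ζ => by
        change T (a * b) (q ζ) = T a (T b (q ζ))
        rw [hT, hT, hT, mul_assoc]
      map_zero' := hext fun ζ => by rw [hT, zero_mul, map_zero]; rfl
      map_add' := fun a b => hext fun ζ => by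
        change T (a + b) (q ζ) = T a (q ζ) + T b (q ζ)
        rw [hT, hT, hT, add_mul, map_add]
      commutes' := fun c => hext fun ζ => by
        rw [hT, Algebra.algebraMap_eq_smul_one, smul_mul_assoc, one_mul, map_smul]
        rfl }
  exact ⟨X, i1, i2, i3, ⟨{
    q := q
    rep := π
    cont := AddMonoidHomClass.continuous_of_bound π ‖q‖ (fun b => hTn b)
    surj := hsurj
    act := hT
    ker := hq }⟩⟩

section

variable {J : Ideal B} {X : Type u} [NormedAddCommGroup X] [NormedSpace ℂ X] [CompleteSpace X]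

/-- Density lemma. -/
theorem density (hJ : J.IsMaximal) (r : RepData J X) {ζ η : B} (hζ : ζ ∉ J)
    (hη : ∀ c : ℂ, η - c • ζ ∉ J) : ∃ b : B, b * ζ ∈ J ∧ ζ - b * η ∈ J := by
  by_cases hex : ∃ b₀ : B, b₀ * ζ ∈ J ∧ b₀ * η ∉ J
  · obtain ⟨b₀, h1, h2⟩ := hex
    obtain ⟨v, hv⟩ := exists_mul_sub_mem hJ h2 ζ
    exact ⟨v * b₀, by rw [mul_assoc]; exact J.mul_mem_left _ h1, by rwa [mul_assoc]⟩
  exfalso
  push Not at hex
  -- a right inverse of `b ↦ q (b ζ)`
  set S : B →L[ℂ] X := r.q.comp ((ContinuousLinearMap.mul ℂ B).flip ζ) with hS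
  set R : B →L[ℂ] X := r.q.comp ((ContinuousLinearMap.mul ℂ B).flip η) with hR
  have hSap : ∀ b, S b = r.q (b * ζ) := fun b => rfl
  have hRap : ∀ b, R b = r.q (b * η) := fun b => rfl
  have hSsurj : Function.Surjective S := by
    intro Y
    obtain ⟨y, rfl⟩ := r.surj Y
    obtain ⟨v, hv⟩ := exists_mul_sub_mem hJ hζ y
    refine ⟨v, ?_⟩
    have h1 := (r.ker _).mpr hv
    rw [map_sub, sub_eq_zero] at h1
    rw [hSap, h1]
  obtain ⟨C, hC, hpre⟩ := S.exists_preimage_norm_le hSsurj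
  choose g hg hgn using hpre
  have hdep : ∀ b b', S b = S b' → R b = R b' := by
    intro b b' h
    have h1 : S (b - b') = 0 := by rw [map_sub, h, sub_self]
    rw [hSap, r.ker] at h1
    have h2 := (r.ker _).mpr (hex _ h1)
    rw [← hRap, map_sub, sub_eq_zero] at h2
    exact h2
  let T₀ : X →ₗ[ℂ] X :=
    { toFun := fun x => R (g x)
      map_add' := fun x y => by
        rw [← map_add]
        apply hdep
        rw [hg, map_add, hg, hg]
      map_smul' := fun c x => by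
        rw [RingHom.id_apply, ← map_smul]
        apply hdep
        rw [hg, map_smul, hg] }
  have hT₀ : ∀ b, T₀ (S b) = R b := fun b => hdep _ _ (hg _)
  let T : X →L[ℂ] X := T₀.mkContinuous (‖R‖ * C) (fun x => by
    calc ‖R (g x)‖ ≤ ‖R‖ * ‖g x‖ := R.le_opNorm _
      _ ≤ ‖R‖ * (C * ‖x‖) := by gcongr; exact hgn x
      _ = ‖R‖ * C * ‖x‖ := by ring)
  have hT : ∀ b, T (S b) = R b := hT₀
  have hXn : Nontrivial X := by
    refine ⟨⟨r.q ζ, 0, ?_⟩⟩
    rw [Ne, r.ker]
    exact hζ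
  obtain ⟨c, hc⟩ := spectrum.nonempty T
  apply hc
  change IsUnit (algebraMap ℂ (X →L[ℂ] X) c - T)
  rw [ContinuousLinearMap.isUnit_iff_bijective]
  set ω : B := c • ζ - η with hω
  have hωJ : ω ∉ J := by
    intro h
    apply hη c
    have : η - c • ζ = -ω := by rw [hω]; abel
    rw [this]
    exact J.neg_mem h
  have hTω : ∀ b, (algebraMap ℂ (X →L[ℂ] X) c - T) (S b) = r.q (b * ω) := by
    intro b
    change c • S b - T (S b) = _
    rw [hT, hSap, hRap, hω, mul_sub, mul_smul_comm, map_sub, map_smul]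
  constructor
  · rw [injective_iff_map_eq_zero]
    intro x hx
    obtain ⟨b, rfl⟩ := hSsurj x
    rw [hTω, r.ker] at hx
    rw [hSap, r.ker]
    by_contra hb
    obtain ⟨v, hv⟩ := exists_mul_sub_mem hJ hb ζ
    -- `(1 - v b) ζ ∈ J`
    have h1 : (1 - v * b) * ζ ∈ J := by
      have : (1 - v * b) * ζ = ζ - v * (b * ζ) := by noncomm_ring
      rwa [this]
    have h2 : (1 - v * b) * η ∈ J := hex _ h1
    have h3 : (1 - v * b) * ω ∈ J := by
      have : (1 - v * b) * ω = c • ((1 - v * b) * ζ) - (1 - v * b) * η := by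
        rw [hω, mul_sub, mul_smul_comm]
      rw [this]
      apply J.sub_mem _ h2
      rw [Algebra.smul_def]
      exact J.mul_mem_left _ h1
    apply hωJ
    have h4 : ω = (1 - v * b) * ω + v * (b * ω) := by noncomm_ring
    rw [h4]
    exact J.add_mem h3 (J.mul_mem_left _ hx)
  · intro Y
    obtain ⟨y, rfl⟩ := r.surj Y
    obtain ⟨v, hv⟩ := exists_mul_sub_mem hJ hωJ y
    refine ⟨S v, ?_⟩
    rw [hTω]
    have h1 := (r.ker _).mpr hv
    rw [map_sub, sub_eq_zero] at h1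
    exact h1.symm

theorem mem_of_SR (hJ : J.IsMaximal) (r : RepData J X) {s : B} (hs : SR (r.rep s) 0)
    (hsb : ∀ b, SR (r.rep (s * b - b * s)) 0) (ζ : B) : s * ζ ∈ J := by
  have eig : ∀ (t ζ : B) (c : ℂ), ζ ∉ J → SR (r.rep t) 0 → t * ζ - c • ζ ∈ J → c = 0 := by
    intro t ζ c h1 h2 h3
    by_contra hc
    have h4 : IsUnit (algebraMap ℂ (X →L[ℂ] X) c - r.rep t) :=
      h2.isUnit_sub (norm_pos_iff.mpr hc)
    rw [ContinuousLinearMap.isUnit_iff_bijective] at h4
    have h5 : (algebraMap ℂ (X →L[ℂ] X) c - r.rep t) (r.q ζ) = 0 := by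
      change c • r.q ζ - r.rep t (r.q ζ) = 0
      rw [r.act, ← map_smul, ← map_sub, r.ker]
      have : c • ζ - t * ζ = -(t * ζ - c • ζ) := by abel
      rw [this]
      exact J.neg_mem h3
    have h6 : r.q ζ = 0 := h4.1 (by rw [h5, map_zero])
    rw [r.ker] at h6
    exact h1 h6
  by_cases hζ : ζ ∈ J
  · exact J.mul_mem_left _ hζ
  by_cases hc : ∃ c : ℂ, s * ζ - c • ζ ∈ J
  · obtain ⟨c, hc⟩ := hc
    have h0 := eig s ζ c hζ hs hc
    rw [h0, zero_smul, sub_zero] at hc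
    exact hc
  · push Not at hc
    obtain ⟨b, hb1, hb2⟩ := density hJ r hζ hc
    exfalso
    have h1 : (s * b - b * s) * ζ - (-1 : ℂ) • ζ ∈ J := by
      have : (s * b - b * s) * ζ - (-1 : ℂ) • ζ = s * (b * ζ) + (ζ - b * (s * ζ)) := by
        rw [neg_smul, one_smul]
        noncomm_ring
      rw [this]
      exact J.add_mem (J.mul_mem_left _ hb1) hb2
    have h2 := eig _ ζ (-1) hζ (hsb b) h1
    norm_num at h2

end

end Pool.Agent.Lib.Kaplansky48
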