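import Mathlib
import Pool.Agent.Lib.Kaplansky48.Rep

/-!
Zemanek's characterisation of the radical, and the invariance of the kernels of the
representations under `gLie`.
-/

set_option linter.unusedSectionVars false

open Filter Topology Complex

namespace Pool.Agent.Lib.Kaplansky48

universe u

variable {B : Type u} [NormedRing B] [NormedAlgebra ℂ B] [CompleteSpace B]

theorem SR_zero : SR (0 : B) 0 := SR.of_norm norm_zero.le

theorem SR.conj {a e e' : B} {m : ℝ} (h : SR a m) (h1 : e * e' = 1) (h2 : e' * e = 1) :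
    SR (e * a * e') m := by
  apply SR.of_isUnit
  intro μ hμ
  have e1 : algebraMap ℂ B μ - e * a * e' = e * (algebraMap ℂ B μ - a) * e' := by
    rw [mul_sub, sub_mul, ← Algebra.commutes μ e, mul_assoc (algebraMap ℂ B μ) e e', h1, mul_one]
  rw [e1]
  have he : IsUnit e := ⟨⟨e, e', h1, h2⟩, rfl⟩
  have he' : IsUnit e' := ⟨⟨e', e, h2, h1⟩, rfl⟩
  exact (he.mul (h.isUnit_sub hμ)).mul he'

theorem zemanek_aux' {C : Type*} [NormedRing C] [NormedAlgebra ℂ C] [CompleteSpace C]
    (π : B →ₐ[ℂ] C) (hπ : Continuous π) {s : B}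
    (h : ∀ y : B, SR (π y) 0 → SR (π s + π y) 0) :
    SR (π s) 0 ∧ ∀ b, SR (π (s * b - b * s)) 0 := by
  have hs : SR (π s) 0 := by
    have h1 := h 0 (by rw [map_zero]; exact SR_zero)
    rwa [map_zero, add_zero] at h1
  refine ⟨hs, fun b => ?_⟩
  set E : ℂ → B := fun c => NormedSpace.exp (c • b) with hE
  set E' : ℂ → B := fun c => NormedSpace.exp ((-c) • b) with hE'
  have hEE' : ∀ c, E c * E' c = 1 := fun c => by
    simp only [hE, hE', neg_smul]; exact cexp_mul_neg _
  have hE'E : ∀ c, E' c * E c = 1 := fun c => by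
    simp only [hE, hE', neg_smul]; exact cexp_neg_mul _
  have hEd : Differentiable ℂ E := cexp_differentiable b
  have hE'd : Differentiable ℂ E' := fun z =>
    (cexp_differentiable b (-z)).comp z differentiableAt_id.neg
  have hE0 : E 0 = 1 := by simp [hE]
  have hE'0 : E' 0 = 1 := by simp [hE']
  set g : ℂ → B := fun c => s - E c * s * E' c with hg
  have hgd : Differentiable ℂ g := by
    simp only [hg]
    fun_prop
  have hg0 : g 0 = 0 := by simp [hg, hE0, hE'0]
  have hgder : HasDerivAt g (s * b - b * s) 0 := by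
    have h1 : HasDerivAt E b 0 := cexp_hasDerivAt b
    have h2 : HasDerivAt E' (-b) 0 := by
      have h3 : HasDerivAt E b (-0) := by rw [neg_zero]; exact h1
      have h4 := h3.scomp (0 : ℂ) (hasDerivAt_neg (0 : ℂ))
      simpa [Function.comp_def] using h4
    have h5 := ((h1.mul_const s).mul h2).const_sub s
    refine h5.congr_deriv ?_
    simp only [hE0, hE'0, one_mul, mul_one]
    noncomm_ring
  set G : ℂ → B := dslope g 0 with hG
  have hGd : Differentiable ℂ G := by
    have := (Complex.differentiableOn_dslope (s := Set.univ) (c := (0 : ℂ)) (f := g)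
      univ_mem).mpr hgd.differentiableOn
    exact differentiableOn_univ.mp this
  have hG0 : G 0 = s * b - b * s := by
    rw [hG, dslope_same, hgder.deriv]
  have hGne : ∀ c, c ≠ 0 → SR (π (G c)) 0 := by
    intro c hc
    have h1 : G c = c⁻¹ • g c := by
      rw [hG, dslope_of_ne _ hc, slope_def_module, hg0, sub_zero, sub_zero]
    have h2 : SR (π (g c)) 0 := by
      have h3 : SR (π (-(E c * s * E' c))) 0 := by
        rw [map_neg, map_mul, map_mul]
        apply SR.neg
        apply hs.conj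
        · rw [← map_mul, hEE', map_one]
        · rw [← map_mul, hE'E, map_one]
      have h4 := h _ h3
      rw [← map_add, ← sub_eq_add_neg] at h4
      exact h4
    rw [h1, map_smul]
    have h5 := h2.smul c⁻¹
    rwa [mul_zero] at h5
  have hπG : Differentiable ℂ (fun t => π (G (t + 1))) := by
    let π' : B →L[ℂ] C := ⟨π.toLinearMap, hπ⟩
    have h1 : Differentiable ℂ (fun t => G (t + 1)) := by fun_prop
    exact π'.differentiable.comp h1
  have key := liouville_SR (f := fun t => π (G (t + 1))) hπG (M := ‖π (G 0)‖) (m := 0)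
    (norm_nonneg _) le_rfl (fun t => by
      by_cases ht : t + 1 = 0
      · simp only [ht]
        exact SR.of_norm le_rfl
      · exact (hGne _ ht).mono (norm_nonneg _)) (hGne _ (by simp)) (-1)
  simp only [neg_add_cancel, hG0] at key
  exact key

theorem zemanek_aux {C : Type*} [NormedRing C] [NormedAlgebra ℂ C] [CompleteSpace C]
    (π : B →ₐ[ℂ] C) (hπ : Continuous π) {s : B}
    (h : ∀ (y : B) (m : ℝ), 0 ≤ m → (SR (π s + π y) m ↔ SR (π y) m)) :
    SR (π s) 0 ∧ ∀ b, SR (π (s * b - b * s)) 0 :=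
  zemanek_aux' π hπ fun y hy => (h y 0 le_rfl).mpr hy

/-- An element `s` such that `s + y` is quasi-nilpotent for all quasi-nilpotent `y` is in every
maximal left ideal. -/
theorem zemanek' {s : B} (h : ∀ y : B, SR y 0 → SR (s + y) 0)
    {J : Ideal B} (hJ : J.IsMaximal) : s ∈ J := by
  obtain ⟨X, _, _, _, ⟨r⟩⟩ := exists_rep hJ
  obtain ⟨h1, h2⟩ := zemanek_aux' (AlgHom.id ℂ B) continuous_id (s := s) (by simpa using h)
  have h3 := mem_of_SR hJ r (s := s) (h1.map r.rep) (fun b => (h2 b).map r.rep) 1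
  rwa [mul_one] at h3

theorem zemanek_eq_zero' (hB : (⊥ : Ideal B).jacobson = ⊥) {s : B}
    (h : ∀ y : B, SR y 0 → SR (s + y) 0) : s = 0 := by
  have h1 : s ∈ (⊥ : Ideal B).jacobson := by
    rw [Ideal.jacobson, Submodule.mem_sInf]
    rintro J ⟨_, hJ⟩
    exact zemanek' h hJ
  rw [hB] at h1
  exact h1

/-- Zemanek: an element which does not change spectral radii is in every maximal left ideal. -/
theorem zemanek {s : B} (h : ∀ (y : B) (m : ℝ), 0 ≤ m → (SR (s + y) m ↔ SR y m))
    {J : Ideal B} (hJ : J.IsMaximal) : s ∈ J := by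
  obtain ⟨X, _, _, _, ⟨r⟩⟩ := exists_rep hJ
  obtain ⟨h1, h2⟩ := zemanek_aux (AlgHom.id ℂ B) continuous_id (s := s) (by simpa using h)
  have h3 := mem_of_SR hJ r (s := s) (h1.map r.rep) (fun b => (h2 b).map r.rep) 1
  rwa [mul_one] at h3

theorem zemanek_eq_zero (hB : (⊥ : Ideal B).jacobson = ⊥) {s : B}
    (h : ∀ (y : B) (m : ℝ), 0 ≤ m → (SR (s + y) m ↔ SR y m)) : s = 0 := by
  have h1 : s ∈ (⊥ : Ideal B).jacobson := by
    rw [Ideal.jacobson, Submodule.mem_sInf]
    rintro J ⟨_, hJ⟩
    exact zemanek h hJ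
  rw [hB] at h1
  exact h1

/-- The kernels of the representations are invariant under `gLie`. -/
theorem gLie_ker {J : Ideal B} (hJ : J.IsMaximal) {E : B →L[ℂ] B} (hE : E ∈ gLie B) {p : B}
    (hp : ∀ ζ, p * ζ ∈ J) : E p ∈ J := by
  obtain ⟨X, _, _, _, ⟨r⟩⟩ := exists_rep hJ
  have hrp : r.rep p = 0 := by
    ext x
    obtain ⟨ζ, rfl⟩ := r.surj x
    rw [r.act, (r.ker _).mpr (hp ζ)]
    rfl
  set φ : ℂ → B →L[ℂ] B := fun c => NormedSpace.exp (c • E) with hφ
  have hφ0 : φ 0 = 1 := exp_zero_smul E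
  let π' : B →L[ℂ] (X →L[ℂ] X) := ⟨r.rep.toLinearMap, r.cont⟩
  have hcst : ∀ (z : B) (c : ℂ) (m : ℝ), 0 ≤ m → (SR (r.rep (φ c z)) m ↔ SR (r.rep z) m) := by
    intro z c m hm
    have hd : Differentiable ℂ (fun c => r.rep (φ c z)) :=
      π'.differentiable.comp (exp_apply_differentiable E z)
    have hb : ∀ c, SR (r.rep (φ c z)) ‖z‖ := fun c =>
      SR.map (((hE c).2.2 z _ (norm_nonneg _)).mpr (SR.of_norm le_rfl)) r.rep
    have h1 := liouville_SR_iff hd (norm_nonneg _) hb hm c 0
    rw [h1, hφ0]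
    rfl
  have hφp : ∀ c, φ c p ∈ J := by
    intro c
    obtain ⟨h1, h2⟩ := zemanek_aux r.rep r.cont (s := φ c p) (by
      intro y m hm
      obtain ⟨z, rfl⟩ : ∃ z, φ c z = y := by
        refine ⟨Ring.inverse (φ c) y, ?_⟩
        rw [← comp_ap, Ring.mul_inverse_cancel _ (cexp_isUnit _)]
        rfl
      rw [← map_add, ← map_add, hcst _ c m hm, hcst _ c m hm, map_add, hrp, zero_add])
    have h3 := mem_of_SR hJ r h1 h2 1
    rwa [mul_one] at h3
  have hder : HasDerivAt (fun c => r.q (φ c p)) (r.q (E p)) 0 := by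
    have h1 : HasDerivAt (fun c => φ c p) (E p) 0 :=
      (ContinuousLinearMap.apply ℂ B p).hasFDerivAt.comp_hasDerivAt 0 (cexp_hasDerivAt E)
    exact r.q.hasFDerivAt.comp_hasDerivAt 0 h1
  have hz : (fun c => r.q (φ c p)) = fun _ => 0 := by
    funext c
    exact (r.ker _).mpr (hφp c)
  rw [hz] at hder
  have h4 := hder.unique (hasDerivAt_const _ _)
  rwa [r.ker] at h4

end Pool.Agent.Lib.Kaplansky48
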