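import Mathlib
import Pool.Agent.Lib.Kaplansky48.Comp

/-!
The open mapping step: at an element `x` of a maximal left ideal `J` which is a limit of elements
of the principal component, the tangent directions `H x` together with `x B` do not span `B / J`.
-/

set_option linter.unusedSectionVars false

open Filter Topology Complex

namespace Pool.Agent.Lib.Kaplansky48

/-- Abstract open mapping statement. -/
theorem open_step {V X B 𝔸 : Type*} [NormedAddCommGroup V] [NormedSpace ℂ V] [CompleteSpace V]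
    [NormedAddCommGroup X] [NormedSpace ℂ X] [CompleteSpace X]
    [NormedRing B] [NormedAlgebra ℂ B] [CompleteSpace B]
    [NormedRing 𝔸] [NormedAlgebra ℂ 𝔸] [CompleteSpace 𝔸]
    (ev : 𝔸 →L[ℂ] B →L[ℂ] B) (hev1 : ∀ y, ev 1 y = y)
    (ι : V →L[ℂ] 𝔸) (q : B →L[ℂ] X) (x : B) (hx : q x = 0)
    (hs : ∀ Y : X, ∃ H : V, ∃ ζ : B, q (ev (ι H) x + x * ζ) = Y) :
    ∀ᶠ y : B in 𝓝 0, ∃ H : V, ∃ ζ : B, ‖ζ‖ < 1 ∧
      q (ev (NormedSpace.exp (ι H)) (x + y) * (1 + ζ)) = 0 := by
  set pr1 : (V × B × B) →L[ℂ] V := ContinuousLinearMap.fst ℂ _ _ with hpr1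
  set pr2 : (V × B × B) →L[ℂ] B :=
    (ContinuousLinearMap.fst ℂ B B).comp (ContinuousLinearMap.snd ℂ _ _) with hpr2
  set pr3 : (V × B × B) →L[ℂ] B :=
    (ContinuousLinearMap.snd ℂ B B).comp (ContinuousLinearMap.snd ℂ _ _) with hpr3
  have hexp : HasStrictFDerivAt (fun p : V × B × B => NormedSpace.exp (ι p.1))
      (ι.comp pr1) 0 := by
    have h1 : HasStrictFDerivAt (NormedSpace.exp : 𝔸 → 𝔸) (1 : 𝔸 →L[ℂ] 𝔸)
        (ι (pr1 0)) := by
      have h2 : ι (pr1 0) = 0 := by simp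
      rw [h2]
      exact hasStrictFDerivAt_exp_zero
    have h3 := h1.comp (0 : V × B × B) ((ι.comp pr1).hasStrictFDerivAt)
    exact h3
  have hevexp : HasStrictFDerivAt (fun p : V × B × B => ev (NormedSpace.exp (ι p.1)))
      (ev.comp (ι.comp pr1)) 0 :=
    ev.hasStrictFDerivAt.comp (0 : V × B × B) hexp
  have hadd : HasStrictFDerivAt (fun p : V × B × B => x + p.2.2) pr3 0 :=
    (pr3.hasStrictFDerivAt (x := (0 : V × B × B))).const_add x
  have hone : HasStrictFDerivAt (fun p : V × B × B => (1 : B) + p.2.1) pr2 0 :=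
    (pr2.hasStrictFDerivAt (x := (0 : V × B × B))).const_add (1 : B)
  have happ := hevexp.clm_apply hadd
  have hPd := happ.mul' hone
  have hG := (q.hasStrictFDerivAt.comp (0 : V × B × B) hPd).prodMk
    (pr3.hasStrictFDerivAt (x := (0 : V × B × B)))
  have hexp0 : NormedSpace.exp (0 : 𝔸) = 1 := NormedSpace.exp_zero
  have hmap := hG.map_nhds_eq_of_surj (by
    rw [LinearMap.range_eq_top]
    rintro ⟨Y, y₀⟩
    obtain ⟨H, ζ, hHζ⟩ := hs (Y - q y₀)
    refine ⟨(H, ζ, y₀), ?_⟩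
    apply Prod.ext
    · rw [map_add] at hHζ
      simp [hpr1, hpr2, hpr3, hexp0, hev1]
      rw [eq_sub_iff_add_eq] at hHζ
      rw [← hHζ]
      abel
    · simp [hpr3])
  have hU : {p : V × B × B | ‖p.2.1‖ < 1} ∈ 𝓝 (0 : V × B × B) := by
    apply IsOpen.mem_nhds
    · exact isOpen_lt (by fun_prop) continuous_const
    · simp
  have himg := image_mem_map (m := fun x_1 : V × B × B =>
    (q (((fun y : V × B × B => (ev (NormedSpace.exp (ι y.1))) (x + y.2.2)) *
      fun p : V × B × B => 1 + p.2.1) x_1), pr3 x_1)) hU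
  rw [hmap] at himg
  have hlim : Tendsto (fun y : B => ((0 : X), y)) (𝓝 0)
      (𝓝 (q (((fun y : V × B × B => (ev (NormedSpace.exp (ι y.1))) (x + y.2.2)) *
        fun p : V × B × B => 1 + p.2.1) 0), pr3 0)) := by
    have e1 : q (((fun y : V × B × B => (ev (NormedSpace.exp (ι y.1))) (x + y.2.2)) *
        fun p : V × B × B => 1 + p.2.1) 0) = 0 := by
      simp [hexp0, hev1, hx]
    have e2 : pr3 0 = 0 := map_zero _
    rw [e1, e2]
    exact (Continuous.tendsto (by fun_prop) 0)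
  filter_upwards [hlim.eventually himg] with y hy
  obtain ⟨p, hp, hpy⟩ := hy
  have h1 := congrArg Prod.fst hpy
  have h2 := congrArg Prod.snd hpy
  have h3 : p.2.2 = y := h2
  refine ⟨p.1, p.2.1, hp, ?_⟩
  rw [← h3]
  exact h1

variable {B : Type*} [NormedRing B] [NormedAlgebra ℂ B] [CompleteSpace B]

theorem isUnit_one_add {ζ : B} (h : ‖ζ‖ < 1) : IsUnit (1 + ζ) := by
  have := (Units.oneSub (-ζ) (by rwa [norm_neg])).isUnit
  simpa using this

theorem not_mem_of_isUnit {J : Ideal B} (hJ : J ≠ ⊤) {u : B} (hu : IsUnit u) : u ∉ J :=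
  fun h => hJ (Ideal.eq_top_of_isUnit_mem J h hu)

/-- Evaluation of operators, as a bilinear map. -/
noncomputable def evCLM (B : Type*) [NormedRing B] [NormedAlgebra ℂ B] :
    (B →L[ℂ] B) →L[ℂ] (B →L[ℂ] B) := ContinuousLinearMap.id ℂ _

theorem graves {J : Ideal B} (hJ : J.IsMaximal) {x : B} (hx : x ∈ J)
    (hx0 : x ∈ closure (Inv0 B)) :
    ¬ ∀ y : B, ∃ H ∈ gLie B, ∃ ζ : B, H x + x * ζ - y ∈ J := by
  intro hall
  set J' : Submodule ℂ B := J.restrictScalars ℂ with hJ'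
  have hclosed : IsClosed (J' : Set B) := by
    have : J.IsMaximal := hJ
    exact (Ideal.IsMaximal.isClosed : IsClosed (J : Set B))
  have hcg : CompleteSpace (gLie B) := isClosed_gLie.completeSpace_coe
  have hq0 : ∀ z, J'.mkQL z = 0 ↔ z ∈ J := fun z => Submodule.Quotient.mk_eq_zero J'
  have key := open_step (V := gLie B) (X := B ⧸ J') (B := B) (𝔸 := B →L[ℂ] B) (evCLM B)
    (fun y => rfl) (gLie B).subtypeL J'.mkQL x ((hq0 x).mpr hx) (by
      intro Y
      obtain ⟨y, rfl⟩ : ∃ y, J'.mkQL y = Y := Submodule.mkQ_surjective J' Y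
      obtain ⟨H, hH, ζ, hHζ⟩ := hall y
      refine ⟨⟨H, hH⟩, ζ, ?_⟩
      have h2 := (hq0 _).mpr hHζ
      rw [map_sub, sub_eq_zero] at h2
      exact h2)
  -- choose an element of `Inv0` near `x`
  have h1 : ∀ᶠ w in 𝓝 x, ∃ H : gLie B, ∃ ζ : B, ‖ζ‖ < 1 ∧
      J'.mkQL (evCLM B (NormedSpace.exp ((gLie B).subtypeL H)) w * (1 + ζ)) = 0 := by
    have h2 : Tendsto (fun w : B => w - x) (𝓝 x) (𝓝 0) := by
      have : Tendsto (fun w : B => w - x) (𝓝 x) (𝓝 (x - x)) := (by fun_prop : Continuous fun w : B => w - x).tendsto x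
      rwa [sub_self] at this
    filter_upwards [h2.eventually key] with w hw
    obtain ⟨H, ζ, h3, h4⟩ := hw
    rw [add_sub_cancel] at h4
    exact ⟨H, ζ, h3, h4⟩
  obtain ⟨w, hw0, ⟨H, hH⟩, ζ, hζ, hw⟩ :=
    ((mem_closure_iff_frequently.mp hx0).and_eventually h1).exists
  rw [hq0] at hw
  apply not_mem_of_isUnit hJ.ne_top _ hw
  apply IsUnit.mul
  · have := exp_isUnit_of_mem_Inv0 hH hw0 1
    rw [one_smul] at this
    exact this
  · exact isUnit_one_add hζ

end Pool.Agent.Lib.Kaplansky48
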