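import Mathlib
import Pool.Agent.Lib.Kaplansky48.Graves
import Pool.Agent.Lib.Kaplansky48.Zem

/-!
The space `WW` of operators behaving like left multiplications (and killing `1`) is zero; hence
all elements of `gLie` are derivations.
-/

set_option linter.unusedSectionVars false

open Filter Topology Complex

namespace Pool.Agent.Lib.Kaplansky48

universe u

variable {B : Type u} [NormedRing B] [NormedAlgebra ℂ B] [CompleteSpace B]

variable (B) in
/-- Operators killing `1` and mapping `x` into `J` whenever `J` is a maximal left ideal and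
`x ∈ J` is a limit of elements of the principal component. -/
def WW : Submodule ℂ (B →L[ℂ] B) where
  carrier := {D | D 1 = 0 ∧ ∀ J : Ideal B, J.IsMaximal → ∀ x ∈ J, x ∈ closure (Inv0 B) → D x ∈ J}
  zero_mem' := ⟨rfl, fun J _ _ _ _ => J.zero_mem⟩
  add_mem' := by
    rintro D D' ⟨h1, h2⟩ ⟨h3, h4⟩
    refine ⟨?_, fun J hJ x hx hx0 => ?_⟩
    · change D 1 + D' 1 = 0
      rw [h1, h3, add_zero]
    · exact J.add_mem (h2 J hJ x hx hx0) (h4 J hJ x hx hx0)
  smul_mem' := by
    rintro c D ⟨h1, h2⟩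
    refine ⟨?_, fun J hJ x hx hx0 => ?_⟩
    · change c • D 1 = 0
      rw [h1, smul_zero]
    · change c • D x ∈ J
      rw [Algebra.smul_def]
      exact J.mul_mem_left _ (h2 J hJ x hx hx0)

theorem isClosed_WW : IsClosed (WW B : Set (B →L[ℂ] B)) := by
  rw [← isSeqClosed_iff_isClosed]
  intro u D hu hD
  have hap : ∀ x : B, Tendsto (fun n => u n x) atTop (𝓝 (D x)) := fun x =>
    ((ContinuousLinearMap.apply ℂ B x).continuous.tendsto D).comp hD
  refine ⟨?_, fun J hJ x hx hx0 => ?_⟩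
  · have h1 : Tendsto (fun n => u n 1) atTop (𝓝 0) := by
      refine tendsto_const_nhds.congr fun n => ?_
      exact (hu n).1.symm
    exact tendsto_nhds_unique (hap 1) h1
  · have hcl : IsClosed (J : Set B) := by
      have : J.IsMaximal := hJ
      exact Ideal.IsMaximal.isClosed
    exact hcl.mem_of_tendsto (hap x) (Eventually.of_forall fun n => (hu n).2 J hJ x hx hx0)

theorem WW_left {D : B →L[ℂ] B} (hD : D ∈ WW B) (b : B) : Lm b * D ∈ WW B := by
  refine ⟨?_, fun J hJ x hx hx0 => ?_⟩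
  · change b * D 1 = 0
    rw [hD.1, mul_zero]
  · exact J.mul_mem_left _ (hD.2 J hJ x hx hx0)

/-- an element of `gLie` all of whose left multiples are in `gLie` is in `WW` -/
theorem mem_WW_of {D : B →L[ℂ] B} (h : ∀ b, Lm b * D ∈ gLie B) : D ∈ WW B := by
  have hD : D ∈ gLie B := by
    have := h 1
    rwa [Lm_one, one_mul] at this
  refine ⟨gLie_apply_one hD, fun J hJ x hx hx0 => ?_⟩
  by_contra hc
  apply graves hJ hx hx0
  intro y
  obtain ⟨b, hb⟩ := exists_mul_sub_mem hJ hc y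
  refine ⟨Lm b * D, h b, 0, ?_⟩
  have e : (Lm b * D) x + x * 0 - y = -(y - b * D x) := by
    change b * D x + x * 0 - y = _
    rw [mul_zero]; abel
  rw [e]
  exact J.neg_mem hb

theorem Dl_mem_WW {E : B →L[ℂ] B} (hE : E ∈ gLie B) (v : B) : Dl E v ∈ WW B := by
  have hE1 : E 1 = 0 := gLie_apply_one hE
  refine ⟨?_, fun J hJ x hx hx0 => ?_⟩
  · rw [Dl_apply, mul_one, mul_one, hE1, mul_zero, sub_zero, sub_self]
  by_cases hxB : ∃ ζ, x * ζ ∉ J
  · let θ : B →ₗ[ℂ] B :=
      { toFun := fun v => Dl E v x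
        map_add' := fun a b => by
          rw [Dl_apply, Dl_apply, Dl_apply, add_mul, map_add, map_add, add_mul, add_mul]
          abel
        map_smul' := fun c a => by
          rw [Dl_apply, Dl_apply, smul_mul_assoc, map_smul, map_smul, smul_mul_assoc,
            smul_mul_assoc, RingHom.id_apply, smul_sub, smul_sub] }
    have hθ : ∀ v, θ v = Dl E v x := fun v => rfl
    set J' : Submodule ℂ B := J.restrictScalars ℂ with hJ'
    set S1 : Submodule ℂ B :=
      (gLie B).map ((ContinuousLinearMap.apply ℂ B x : (B →L[ℂ] B) →L[ℂ] B) :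
        (B →L[ℂ] B) →ₗ[ℂ] B) with hS1
    set S2 : Submodule ℂ B := LinearMap.range (LinearMap.mulLeft ℂ x) with hS2
    have hne : S1 ⊔ S2 ⊔ J' ≠ ⊤ := by
      intro htop
      apply graves hJ hx hx0
      intro y
      have hy : y ∈ S1 ⊔ S2 ⊔ J' := by rw [htop]; trivial
      obtain ⟨a, ha, j, hj, rfl⟩ := Submodule.mem_sup.mp hy
      obtain ⟨a1, ha1, a2, ha2, rfl⟩ := Submodule.mem_sup.mp ha
      obtain ⟨H, hH, rfl⟩ := (Submodule.mem_map).mp ha1
      obtain ⟨ζ, rfl⟩ := LinearMap.mem_range.mp ha2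
      refine ⟨H, hH, ζ, ?_⟩
      have e : H x + x * ζ - (((ContinuousLinearMap.apply ℂ B x : (B →L[ℂ] B) →L[ℂ] B) :
        (B →L[ℂ] B) →ₗ[ℂ] B) H + (LinearMap.mulLeft ℂ x) ζ + j) = -j := by
        change H x + x * ζ - (H x + x * ζ + j) = -j
        abel
      rw [e]
      exact J.neg_mem hj
    obtain ⟨f, hf0, hf⟩ := Submodule.exists_le_ker_of_lt_top _ (lt_top_iff_ne_top.mpr hne)
    have hfg : ∀ H ∈ gLie B, f (H x) = 0 := by
      intro H hH
      have : H x ∈ S1 ⊔ S2 ⊔ J' :=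
        Submodule.mem_sup_left (Submodule.mem_sup_left ⟨H, hH, rfl⟩)
      exact hf this
    have hfx : ∀ ζ, f (x * ζ) = 0 := by
      intro ζ
      have : x * ζ ∈ S1 ⊔ S2 ⊔ J' :=
        Submodule.mem_sup_left (Submodule.mem_sup_right ⟨ζ, rfl⟩)
      exact hf this
    have hfJ : ∀ j ∈ J, f j = 0 := by
      intro j hj
      have : j ∈ S1 ⊔ S2 ⊔ J' := Submodule.mem_sup_right hj
      exact hf this
    have key := lemA hJ (x := x) θ hf0 hfJ hfx
      (fun a => hfg _ (Dl_mem hE a).2.1)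
      (fun a => by
        have := hfg _ (Dl_mem hE a).2.2
        exact this) hxB v
    exact key
  · push Not at hxB
    rw [Dl_apply]
    have h1 : E x ∈ J := gLie_ker hJ hE hxB
    have h2 : E (v * x) ∈ J := gLie_ker hJ hE (fun ζ => by
      rw [mul_assoc]; exact J.mul_mem_left _ (hxB ζ))
    exact J.sub_mem (J.sub_mem h2 (J.mul_mem_left _ hx)) (J.mul_mem_left _ h1)

/-- A limit of elements of `Inv0` which is not invertible lies in a maximal left ideal. -/
theorem exists_maximal_of_closure {x : B} (hx : x ∈ closure (Inv0 B)) (hu : ¬ IsUnit x) :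
    ∃ J : Ideal B, J.IsMaximal ∧ x ∈ J := by
  have hne : Ideal.span {x} ≠ (⊤ : Ideal B) := by
    intro htop
    have h1 : (1 : B) ∈ Ideal.span {x} := by rw [htop]; trivial
    obtain ⟨k, hk⟩ := Ideal.mem_span_singleton'.mp h1
    apply hu
    have h2 : ContinuousAt (fun y => k * y) x := by fun_prop
    have h3 : ∀ᶠ y in 𝓝 x, IsUnit (k * y) := by
      apply h2.eventually
      exact Units.isOpen.mem_nhds (by change IsUnit (k * x); rw [hk]; exact isUnit_one)
    obtain ⟨y, hy0, hy⟩ := ((mem_closure_iff_frequently.mp hx).and_eventually h3).exists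
    have hyu : IsUnit y := isUnit_of_mem_Inv0 hy0
    have hku : IsUnit k := by
      have : k = k * y * Ring.inverse y := by rw [mul_assoc, Ring.mul_inverse_cancel _ hyu, mul_one]
      rw [this]
      exact hy.mul hyu.ringInverse
    have hx' : x = Ring.inverse k := by
      calc x = Ring.inverse k * k * x := by rw [Ring.inverse_mul_cancel _ hku, one_mul]
        _ = Ring.inverse k := by rw [mul_assoc, hk, mul_one]
    rw [hx']
    exact hku.ringInverse
  obtain ⟨J, hJ, hle⟩ := Ideal.exists_le_maximal _ hne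
  exact ⟨J, hJ, hle (Ideal.subset_span rfl)⟩

theorem isUnit_one_sub_op {D : B →L[ℂ] B} (h : ‖D‖ < 1) : IsUnit (1 - D) :=
  (Units.oneSub D h).isUnit

theorem inverse_apply {R : B →L[ℂ] B} (hR : IsUnit R) (x : B) : Ring.inverse R (R x) = x := by
  rw [← comp_ap, Ring.inverse_mul_cancel _ hR]; rfl

theorem apply_inverse {R : B →L[ℂ] B} (hR : IsUnit R) (x : B) : R (Ring.inverse R x) = x := by
  rw [← comp_ap, Ring.mul_inverse_cancel _ hR]; rfl

theorem WW_inv {D : B →L[ℂ] B} (hD : D ∈ WW B) (h : ‖D‖ < 1) {w : B} (hw : w ∈ Inv0 B) :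
    Ring.inverse (1 - D) w ∈ Inv0 B := by
  have hu := isUnit_one_sub_op h
  have hap : ∀ x, (1 - D) x = x - D x := fun x => rfl
  have h1 : (Ring.inverse (1 - D)) 1 = 1 := by
    have := inverse_apply hu 1
    rwa [hap, hD.1, sub_zero] at this
  set R : B →L[ℂ] B := Ring.inverse (1 - D) with hR
  have hpre : IsPreconnected (R '' Inv0 B) :=
    isPreconnected_Inv0.image _ R.continuous.continuousOn
  have hsub : R '' Inv0 B ⊆ Inv0 B := by
    apply hpre.subset_of_closure_inter_subset isOpen_Inv0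
    · exact ⟨1, ⟨1, one_mem_Inv0, h1⟩, one_mem_Inv0⟩
    · rintro x ⟨hxc, w, hw, hwx⟩
      by_contra hx
      have hnu : ¬ IsUnit x := fun hxu => hx (mem_Inv0_of_closure hxc hxu)
      obtain ⟨J, hJ, hxJ⟩ := exists_maximal_of_closure hxc hnu
      have h2 : D x ∈ J := hD.2 J hJ x hxJ hxc
      have h3 : (1 - D) x = w := by rw [← hwx, hR, apply_inverse hu]
      have h4 : w ∈ J := by
        rw [← h3, hap]
        exact J.sub_mem hxJ h2
      exact not_mem_of_isUnit hJ.ne_top (isUnit_of_mem_Inv0 hw) h4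
  exact hsub ⟨w, hw, rfl⟩

theorem WW_SR {D : B →L[ℂ] B} (hD : D ∈ WW B) (h : ‖D‖ < 1) {x : B} {m : ℝ} (hm : 0 ≤ m)
    (hx : SR x m) : SR (Ring.inverse (1 - D) x) m := by
  have hu := isUnit_one_sub_op h
  have hap : ∀ x, (1 - D) x = x - D x := fun x => rfl
  have h1 : (Ring.inverse (1 - D)) 1 = 1 := by
    have := inverse_apply hu 1
    rwa [hap, hD.1, sub_zero] at this
  apply SR.of_isUnit
  intro z hz
  have h2 := WW_inv hD h (sub_mem_Inv0 hm hx hz)
  rw [map_sub, Algebra.algebraMap_eq_smul_one, map_smul, h1,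
    ← Algebra.algebraMap_eq_smul_one] at h2
  exact isUnit_of_mem_Inv0 h2

theorem WW_InG {D : B →L[ℂ] B} (hD : D ∈ WW B) : ∀ᶠ τ : ℂ in 𝓝 0, InG (1 - τ • D) := by
  set ρ : ℝ := 1 / (‖D‖ + 1) with hρ
  have hρ0 : 0 < ρ := by positivity
  have hn : ∀ τ : ℂ, ‖τ‖ < ρ → ‖τ • D‖ < 1 := by
    intro τ hτ
    rw [norm_smul]
    calc ‖τ‖ * ‖D‖ ≤ ρ * ‖D‖ := by gcongr
      _ < ρ * (‖D‖ + 1) := by gcongr; linarith
      _ = 1 := by rw [hρ]; field_simp
  have hball : Metric.ball (0 : ℂ) (ρ / 3) ∈ 𝓝 (0 : ℂ) := Metric.ball_mem_nhds _ (by positivity)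
  filter_upwards [hball] with τ hτ
  rw [mem_ball_zero_iff] at hτ
  have hτρ : ‖τ‖ < ρ := by linarith
  have hu := isUnit_one_sub_op (hn τ hτρ)
  have hD1 : ∀ τ : ℂ, (1 - τ • D) 1 = 1 := by
    intro τ
    change 1 - τ • D 1 = 1
    rw [hD.1, smul_zero, sub_zero]
  have hG : InG (Ring.inverse (1 - τ • D)) := by
    refine ⟨?_, hu.ringInverse, fun x m hm => ?_⟩
    · have := inverse_apply hu 1
      rwa [hD1] at this
    · refine ⟨fun h => ?_, WW_SR ((WW B).smul_mem τ hD) (hn τ hτρ) hm⟩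
      have hd : DifferentiableOn ℂ (fun τ : ℂ => Ring.inverse (1 - τ • D) x)
          (Metric.ball 0 ρ) := by
        intro t ht
        rw [mem_ball_zero_iff] at ht
        have h1 : DifferentiableAt ℂ (fun τ : ℂ => Ring.inverse (1 - τ • D)) t :=
          DifferentiableAt.comp (g := Ring.inverse) t
            (differentiableAt_inverse (𝕜 := ℂ) (isUnit_one_sub_op (hn t ht))) (by fun_prop)
        exact (((ContinuousLinearMap.apply ℂ B x).differentiableAt).comp t h1).differentiableWithinAt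
      have h0 : Ring.inverse (1 - (0 : ℂ) • D) x = x := by
        rw [zsm, sub_zero, Ring.inverse_one]; rfl
      have key := local_max_SR hd (fun t ht m hm h => by
        rw [mem_ball_zero_iff] at ht
        rw [h0] at h
        exact WW_SR ((WW B).smul_mem t hD) (hn t ht) hm h) hτ hm h
      beta_reduce at key
      rwa [h0] at key
  exact hG.of_mul_eq_one (Ring.inverse_mul_cancel _ hu)

theorem hasDerivAt_one_sub_smul {𝔸 : Type*} [NormedRing 𝔸] [NormedAlgebra ℂ 𝔸] (K : 𝔸) :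
    HasDerivAt (fun τ : ℂ => 1 - τ • K) (-K) 0 := by
  have h1 : HasDerivAt (fun τ : ℂ => τ • K) ((1 : ℂ) • K) 0 :=
    (hasDerivAt_id (0 : ℂ)).smul_const K
  have h2 := h1.const_sub 1
  rwa [one_smul] at h2

theorem smul_sub_aux {𝔸 : Type*} [AddCommGroup 𝔸] [Module ℂ 𝔸] (n a b : ℂ) (K M : 𝔸) :
    n • (a • K - b • M) = (n * a) • K - (n * b) • M := by
  rw [smul_sub, smul_smul, smul_smul]

theorem WW_le_gLie {D : B →L[ℂ] B} (hD : D ∈ WW B) : D ∈ gLie B := by
  have hder : HasDerivAt (fun τ : ℂ => 1 - τ • D) (-D) 0 := hasDerivAt_one_sub_smul D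
  have h := mem_gLie_of_hasDerivAt hder (by rw [zsm, sub_zero]) (WW_InG hD)
  have h2 := (gLie B).neg_mem h
  rwa [neg_neg] at h2

theorem exists_sqrt (c : ℂ) : ∃ s : ℂ, s * s = c := by
  obtain ⟨s, hs⟩ := IsAlgClosed.exists_pow_nat_eq c (n := 2) two_pos
  exact ⟨s, by rw [← pow_two]; exact hs⟩

theorem WW_sq {D : B →L[ℂ] B} (hD : D ∈ WW B) : D * D ∈ gLie B := by
  choose s hs using exists_sqrt
  have hs0 : Tendsto s (𝓝 0) (𝓝 0) := by
    rw [tendsto_zero_iff_norm_tendsto_zero]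
    have h1 : ∀ c, ‖s c‖ = Real.sqrt ‖c‖ := by
      intro c
      rw [← hs c, norm_mul, Real.sqrt_mul_self (norm_nonneg _), hs]
    simp only [h1]
    have h2 : Tendsto (fun c : ℂ => Real.sqrt ‖c‖) (𝓝 0) (𝓝 (Real.sqrt ‖(0 : ℂ)‖)) :=
      (Continuous.tendsto (by fun_prop) 0)
    simpa using h2
  have h1 := hs0.eventually (WW_InG hD)
  have h2 := hs0.eventually (WW_InG ((WW B).neg_mem hD))
  have hder : HasDerivAt (fun τ : ℂ => 1 - τ • (D * D)) (-(D * D)) 0 :=
    hasDerivAt_one_sub_smul (D * D)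
  have h3 : ∀ᶠ τ : ℂ in 𝓝 0, InG (1 - τ • (D * D)) := by
    filter_upwards [h1, h2] with τ h4 h5
    have e : (1 - s τ • D) * (1 - s τ • (-D)) = 1 - τ • (D * D) := by
      rw [smul_neg, sub_neg_eq_add, mul_add, mul_one, sub_mul, one_mul, smul_mul_op, mul_smul_op,
        smul_smul, hs]
      abel
    rw [← e]
    exact h4.mul h5
  have h := mem_gLie_of_hasDerivAt hder (by rw [zsm, sub_zero]) h3
  have h2 := (gLie B).neg_mem h
  rwa [neg_neg] at h2

theorem alg_identity {𝔸 : Type*} [Ring 𝔸] [Algebra ℂ 𝔸] (P Q : 𝔸) (s : ℂ) :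
    (1 - s • (-P)) * (1 - s • (-Q)) * (1 - s • (P + Q)) - 1 =
      (s * s) • (P * Q - (P + Q) * (P + Q)) - (s * s * s) • (P * Q * (P + Q)) := by
  have e : ∀ P' Q' : 𝔸, (1 - -P') * (1 - -Q') * (1 - (P' + Q')) - 1 =
      (P' * Q' - (P' + Q') * (P' + Q')) - P' * Q' * (P' + Q') := by
    intro P' Q'; noncomm_ring
  have h := e (s • P) (s • Q)
  rw [smul_neg, smul_neg, smul_add, h, ← smul_add, smul_mul_smul_comm, smul_mul_smul_comm,
    smul_mul_smul_comm, smul_sub]

theorem WW_mul_gLie {P Q : B →L[ℂ] B} (hP : P ∈ WW B) (hQ : Q ∈ WW B) : P * Q ∈ gLie B := by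
  set K := P * Q - (P + Q) * (P + Q) with hK
  set M := P * Q * (P + Q) with hM
  have hKg : K ∈ gLie B := by
    intro c
    choose s hs using fun n : ℕ => exists_sqrt (c / n)
    have hs0 : Tendsto s atTop (𝓝 0) := by
      rw [tendsto_zero_iff_norm_tendsto_zero]
      have h1 : ∀ n, ‖s n‖ = Real.sqrt ‖c / n‖ := by
        intro n
        rw [← hs n, norm_mul, Real.sqrt_mul_self (norm_nonneg _)]
      simp only [h1]
      have h2 : Tendsto (fun n : ℕ => ‖c / n‖) atTop (𝓝 0) := by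
        have := (tendsto_const_div_atTop_nhds_zero_nat c).norm
        rwa [norm_zero] at this
      have h3 := h2.sqrt
      rwa [Real.sqrt_zero] at h3
    have h1 := hs0.eventually (WW_InG ((WW B).neg_mem hP))
    have h2 := hs0.eventually (WW_InG ((WW B).neg_mem hQ))
    have h3 := hs0.eventually (WW_InG ((WW B).add_mem hP hQ))
    refine InG.exp_of_tendsto
      (Q := fun n => (1 - s n • (-P)) * (1 - s n • (-Q)) * (1 - s n • (P + Q))) ?_ ?_
    · filter_upwards [h1, h2, h3] with n h4 h5 h6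
      exact (h4.mul h5).mul h6
    · have e : ∀ n : ℕ, (1 - s n • (-P)) * (1 - s n • (-Q)) * (1 - s n • (P + Q)) - 1 =
          (s n * s n) • K - (s n * s n * s n) • M := fun n => alg_identity P Q (s n)
      have h7 : Tendsto (fun n : ℕ => c • K - (c * s n) • M) atTop (𝓝 (c • K)) := by
        have h8 : Tendsto (fun n : ℕ => c • K - (c * s n) • M) atTop
            (𝓝 (c • K - (c * 0) • M)) :=
          tendsto_const_nhds.sub ((hs0.const_mul c).smul_const M)
        rwa [mul_zero, zsm, sub_zero] at h8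
      refine h7.congr' ?_
      filter_upwards [eventually_ne_atTop 0] with n hn
      have hn' : (n : ℂ) ≠ 0 := by exact_mod_cast hn
      rw [e n]
      refine Eq.trans ?_ (smul_sub_aux (n : ℂ) (s n * s n) (s n * s n * s n) K M).symm
      rw [hs n]
      congr 2
      · field_simp
      · field_simp
  have h := (gLie B).add_mem hKg (WW_sq ((WW B).add_mem hP hQ))
  rwa [hK, sub_add_cancel] at h

theorem WW_mul {P Q : B →L[ℂ] B} (hP : P ∈ WW B) (hQ : Q ∈ WW B) : P * Q ∈ WW B := by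
  apply mem_WW_of
  intro b
  rw [← mul_assoc]
  exact WW_mul_gLie (WW_left hP b) hQ

theorem WW_pow {D : B →L[ℂ] B} (hD : D ∈ WW B) (n : ℕ) : D ^ (n + 1) ∈ WW B := by
  induction n with
  | zero => rwa [zero_add, pow_one]
  | succ n ih => rw [pow_succ]; exact WW_mul ih hD

theorem WW_inverse_sub_one {D : B →L[ℂ] B} (hD : D ∈ WW B) (h : ‖D‖ < 1) :
    Ring.inverse (1 - D) - 1 ∈ WW B := by
  have h1 : HasSum (fun n : ℕ => D ^ n) (Ring.inverse (1 - D)) := by
    have h2 := (summable_geometric_of_norm_lt_one h).hasSum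
    rw [NormedRing.inverse_one_sub D h]
    exact h2
  have h2 : Tendsto (fun N : ℕ => ∑ n ∈ Finset.range (N + 1), D ^ n - 1) atTop
      (𝓝 (Ring.inverse (1 - D) - 1)) :=
    (((tendsto_add_atTop_iff_nat 1).mpr h1.tendsto_sum_nat)).sub_const 1
  refine isClosed_WW.mem_of_tendsto h2 (Eventually.of_forall fun N => ?_)
  rw [Finset.sum_range_succ', pow_zero, add_sub_cancel_right]
  exact (WW B).sum_mem fun n _ => WW_pow hD n

/-- `1 - D` maps `Inv0` into itself for small `D` in `WW`. -/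
theorem WW_one_sub {D : B →L[ℂ] B} (hD : D ∈ WW B) (h : ‖D‖ < 1 / 2) {w : B}
    (hw : w ∈ Inv0 B) : w - D w ∈ Inv0 B := by
  have h1 : ‖D‖ < 1 := by linarith
  have hu := isUnit_one_sub_op h1
  set R := Ring.inverse (1 - D) with hR
  have hmem : R - 1 ∈ WW B := WW_inverse_sub_one hD h1
  have hRD : R - 1 = D * R := by
    have e : (1 - D) * R = 1 := Ring.mul_inverse_cancel _ hu
    rw [sub_mul, one_mul] at e
    rw [← e]; abel
  have hn : ‖R - 1‖ < 1 := by
    have h2 : ‖R‖ ≤ 1 + ‖R - 1‖ := by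
      calc ‖R‖ = ‖1 + (R - 1)‖ := by congr 1; abel
        _ ≤ ‖(1 : B →L[ℂ] B)‖ + ‖R - 1‖ := norm_add_le _ _
        _ ≤ 1 + ‖R - 1‖ := by gcongr; exact norm_one_le
    have h3 : ‖R - 1‖ ≤ ‖D‖ * (1 + ‖R - 1‖) := by
      calc ‖R - 1‖ = ‖D * R‖ := by rw [← hRD]
        _ ≤ ‖D‖ * ‖R‖ := norm_mul_le _ _
        _ ≤ ‖D‖ * (1 + ‖R - 1‖) := by gcongr
    nlinarith [norm_nonneg (R - 1), norm_nonneg D]
  have h4 := WW_inv ((WW B).neg_mem hmem) (by rwa [norm_neg]) hw
  have e1 : (1 : B →L[ℂ] B) - -(R - 1) = R := by abel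
  rw [e1] at h4
  have e2 : Ring.inverse R = 1 - D := by
    rw [hR]
    obtain ⟨v, hv⟩ := hu
    rw [← hv, Ring.inverse_unit, Ring.inverse_unit, inv_inv]
  rw [e2] at h4
  exact h4

theorem exp_mem_Inv0 (b : B) (c : ℂ) : NormedSpace.exp (c • b) ∈ Inv0 B := by
  have h1 : IsPreconnected (Set.range (fun c : ℂ => NormedSpace.exp (c • b))) :=
    isPreconnected_range (cexp_differentiable b).continuous
  refine subset_Inv0 h1 ?_ (y := 1) ⟨0, by simp⟩ one_mem_Inv0 ⟨c, rfl⟩
  rintro _ ⟨z, rfl⟩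
  exact cexp_isUnit _

/-- The uniform bound. -/
theorem WW_bound {D : B →L[ℂ] B} (hD : D ∈ WW B) (b : B) :
    ∃ M : ℝ, 0 ≤ M ∧ ∀ w ∈ Inv0 B, SR (D w * Ring.inverse w + b) M := by
  have hcont : ContinuousAt (fun t : ℂ => t • Ring.inverse (1 - t • b)) 0 := by
    have h1 : ContinuousAt (fun t : ℂ => Ring.inverse (1 - t • b)) 0 := by
      have h2 : ContinuousAt (Ring.inverse : B → B) (1 - (0 : ℂ) • b) := by
        have h3 := NormedRing.inverse_continuousAt (1 : Bˣ)
        simpa using h3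
      exact ContinuousAt.comp (g := Ring.inverse) h2 (by fun_prop)
    exact continuousAt_id.smul h1
  have hev1 : ∀ᶠ t : ℂ in 𝓝 0, ‖t • Ring.inverse (1 - t • b)‖ * ‖D‖ < 1 / 2 := by
    have h1 : ContinuousAt (fun t : ℂ => ‖t • Ring.inverse (1 - t • b)‖ * ‖D‖) 0 :=
      hcont.norm.mul continuousAt_const
    exact h1.eventually_lt_const (by simp)
  have hev2 : ∀ᶠ t : ℂ in 𝓝 0, IsUnit (1 - t • b) := by
    have h1 : ContinuousAt (fun t : ℂ => 1 - t • b) 0 := by fun_prop
    exact h1.eventually (Units.isOpen.mem_nhds (by simp))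
  obtain ⟨δ, hδ, hball⟩ := Metric.eventually_nhds_iff.mp (hev1.and hev2)
  refine ⟨1 / δ, by positivity, fun w hw => ?_⟩
  have hwu : IsUnit w := isUnit_of_mem_Inv0 hw
  apply SR.of_isUnit
  intro z hz
  have hzpos : 0 < ‖z‖ := lt_trans (by positivity) hz
  have hz0 : z ≠ 0 := norm_pos_iff.mp hzpos
  set t := z⁻¹ with ht
  have htδ : dist t 0 < δ := by
    rw [dist_zero_right, ht, norm_inv]
    rw [one_div] at hz
    exact (inv_lt_comm₀ hδ hzpos).mp hz
  obtain ⟨h1, h2⟩ := hball htδ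
  set e : B := t • Ring.inverse (1 - t • b) with he
  have hze : (algebraMap ℂ B z - b) * e = 1 := by
    have e1 : algebraMap ℂ B z - b = z • (1 - t • b) := by
      rw [smul_sub, smul_smul, ht, mul_inv_cancel₀ hz0, one_smul, Algebra.algebraMap_eq_smul_one]
    rw [e1, he, smul_mul_smul_comm, ht, mul_inv_cancel₀ hz0, one_smul, ← ht,
      Ring.mul_inverse_cancel _ h2]
  have hzu : IsUnit (algebraMap ℂ B z - b) := by
    have e1 : algebraMap ℂ B z - b = algebraMap ℂ B z * (1 - t • b) := by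
      rw [mul_sub, mul_one, Algebra.algebraMap_eq_smul_one, smul_mul_smul_comm, one_mul, ht,
        mul_inv_cancel₀ hz0, one_smul]
    rw [e1]
    exact ((isUnit_iff_ne_zero.mpr hz0).map (algebraMap ℂ B)).mul h2
  have hD' : Lm e * D ∈ WW B := WW_left hD e
  have hn : ‖Lm e * D‖ < 1 / 2 := by
    calc ‖Lm e * D‖ ≤ ‖Lm e‖ * ‖D‖ := norm_mul_le _ _
      _ ≤ ‖e‖ * ‖D‖ := by gcongr; exact ContinuousLinearMap.opNorm_mul_apply_le ℂ B e
      _ < 1 / 2 := h1
  have h3 := isUnit_of_mem_Inv0 (WW_one_sub hD' hn hw)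
  have h4 : algebraMap ℂ B z - (D w * Ring.inverse w + b) =
      (algebraMap ℂ B z - b) * (w - (Lm e * D) w) * Ring.inverse w := by
    have e1 : (Lm e * D) w = e * D w := rfl
    rw [e1, mul_sub, ← mul_assoc _ e, hze, one_mul, sub_mul, mul_assoc _ w,
      Ring.mul_inverse_cancel _ hwu, mul_one]
    abel
  rw [h4]
  exact (hzu.mul h3).mul hwu.ringInverse

theorem WW_eq_zero (hB : (⊥ : Ideal B).jacobson = ⊥) {D : B →L[ℂ] B} (hD : D ∈ WW B) :
    D = 0 := by
  ext d
  change D d = 0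
  have hexpd := cexp_differentiable d
  have h1 : ∀ c : ℂ, D (NormedSpace.exp (c • d)) = 0 := by
    intro c
    set w : ℂ → B := fun c => NormedSpace.exp (c • d) with hw
    have hwu : ∀ c, IsUnit (w c) := fun c => cexp_isUnit _
    have hs : D (w c) * Ring.inverse (w c) = 0 := by
      apply zemanek_eq_zero hB
      intro y m hm
      obtain ⟨M, hM, hMb⟩ := WW_bound hD y
      have hd : Differentiable ℂ (fun c => D (w c) * Ring.inverse (w c) + y) :=
        ((D.differentiable.comp hexpd).mul (ringInverse_differentiable hexpd hwu)).add_const y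
      have h2 := liouville_SR_iff hd hM (fun c => hMb _ (exp_mem_Inv0 d c)) hm c 0
      have h3 : w 0 = 1 := by simp [hw]
      rw [h2, h3, hD.1, zero_mul, zero_add]
    calc D (w c) = D (w c) * (Ring.inverse (w c) * w c) := by
          rw [Ring.inverse_mul_cancel _ (hwu c), mul_one]
      _ = 0 := by rw [← mul_assoc, hs, zero_mul]
  have h2 : HasDerivAt (fun c : ℂ => D (NormedSpace.exp (c • d))) (D d) 0 :=
    D.hasFDerivAt.comp_hasDerivAt 0 (cexp_hasDerivAt d)
  have h3 : (fun c : ℂ => D (NormedSpace.exp (c • d))) = fun _ => 0 := by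
    funext c; exact h1 c
  rw [h3] at h2
  exact h2.unique (hasDerivAt_const _ _)

/-- Elements of `gLie` are derivations when the algebra is semisimple. -/
theorem gLie_derivation (hB : (⊥ : Ideal B).jacobson = ⊥) {E : B →L[ℂ] B} (hE : E ∈ gLie B)
    (x y : B) : E (x * y) = E x * y + x * E y := by
  have h := WW_eq_zero hB (Dl_mem_WW hE x)
  have h2 : Dl E x y = 0 := by rw [h]; rfl
  rw [Dl_apply, sub_sub, sub_eq_zero] at h2
  exact h2

end Pool.Agent.Lib.Kaplansky48
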