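import Mathlib
import Pool.Agent.Lib.Kaplansky48.Mult
import Pool.Agent.Lib.Kaplansky48.Cont

/-!
The operators `D_a` are derivations; conclusion.
-/

set_option linter.unusedSectionVars false

open Filter Topology Complex

namespace Pool.Agent.Lib.Kaplansky48

universe u

variable {A : Type*} {B : Type u} [NormedRing A] [NormedAlgebra ℂ A] [CompleteSpace A]
  [NormedRing B] [NormedAlgebra ℂ B] [CompleteSpace B]

/-- Factoring bounded operators through a surjection. -/
theorem exists_factor (T : A →L[ℂ] B) (hs : Function.Surjective T) :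
    ∃ C₀ : ℝ, 0 ≤ C₀ ∧ (∀ R : A →L[ℂ] B, (∀ y, T y = 0 → R y = 0) →
      ∃ S : B →L[ℂ] B, ∀ y, S (T y) = R y) ∧ ∀ S : B →L[ℂ] B, ‖S‖ ≤ C₀ * ‖S.comp T‖ := by
  obtain ⟨C, hC, hpre⟩ := T.exists_preimage_norm_le hs
  refine ⟨C, hC.le, fun R hR => ?_, fun S => ?_⟩
  · have hdep : ∀ y y', T y = T y' → R y = R y' := by
      intro y y' h
      have := hR (y - y') (by rw [map_sub, h, sub_self])
      rwa [map_sub, sub_eq_zero] at this
    set g : B → A := Function.surjInv hs with hg
    have hgT : ∀ b, T (g b) = b := Function.surjInv_eq hs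
    let S₀ : B →ₗ[ℂ] B :=
      { toFun := fun x => R (g x)
        map_add' := fun x y => by
          rw [← map_add]
          apply hdep
          rw [hgT, map_add, hgT, hgT]
        map_smul' := fun c x => by
          rw [RingHom.id_apply, ← map_smul]
          apply hdep
          rw [hgT, map_smul, hgT] }
    have hS₀ : ∀ y, S₀ (T y) = R y := fun y => hdep _ _ (hgT _)
    refine ⟨S₀.mkContinuous (‖R‖ * C) (fun b => ?_), fun y => hS₀ y⟩
    obtain ⟨y, rfl, hy⟩ := hpre b
    rw [hS₀]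
    calc ‖R y‖ ≤ ‖R‖ * ‖y‖ := R.le_opNorm y
      _ ≤ ‖R‖ * (C * ‖T y‖) := by gcongr
      _ = _ := by ring
  · apply ContinuousLinearMap.opNorm_le_bound _ (by positivity)
    intro b
    obtain ⟨y, rfl, hy⟩ := hpre b
    calc ‖S (T y)‖ = ‖(S.comp T) y‖ := rfl
      _ ≤ ‖S.comp T‖ * ‖y‖ := ContinuousLinearMap.le_opNorm _ _
      _ ≤ ‖S.comp T‖ * (C * ‖T y‖) := by gcongr
      _ = _ := by ring

/-- The operator `D_a` on `B`, given by `D_a (T y) = T (a y) - T a T y`, is a derivation. -/
theorem exists_D (hB : (⊥ : Ideal B).jacobson = ⊥) (T : A →L[ℂ] B) (h1 : T 1 = 1)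
    (hs : Function.Surjective T) (hinv : ∀ x, IsUnit x → IsUnit (T x)) (a : A) :
    ∃ D : B →L[ℂ] B, (∀ y, D (T y) = T (a * y) - T a * T y) ∧
      ∀ x y, D (x * y) = D x * y + x * D y := by
  set E : ℂ → A := fun c => NormedSpace.exp (c • a) with hE
  have hEd : Differentiable ℂ E := cexp_differentiable a
  have hEE' : ∀ z, E z * E (-z) = 1 := fun z => by
    simp only [hE, neg_smul]; exact cexp_mul_neg _
  have hE'E : ∀ z, E (-z) * E z = 1 := fun z => by
    simp only [hE, neg_smul]; exact cexp_neg_mul _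
  have hE0 : E 0 = 1 := by simp [hE]
  have hEa : HasDerivAt E a 0 := cexp_hasDerivAt a
  have hEu : ∀ z, IsUnit (E z) := fun z => ⟨⟨E z, E (-z), hEE' z, hE'E z⟩, rfl⟩
  have hGu : ∀ z, IsUnit (T (E z)) := fun z => hinv _ (hEu z)
  have hGd : Differentiable ℂ (fun z => T (E z)) := T.differentiable.comp hEd
  have hinvd : Differentiable ℂ (fun z => Ring.inverse (T (E z))) :=
    ringInverse_differentiable hGd hGu
  set f : A → ℂ → B := fun w z => Ring.inverse (T (E z)) * T (E z * w) with hf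
  have hfd : ∀ w, Differentiable ℂ (f w) := by
    intro w
    have h2 : Differentiable ℂ (fun z => E z * w) := hEd.mul_const w
    have : Differentiable ℂ (fun z => T (E z * w)) := T.differentiable.comp h2
    exact hinvd.mul this
  have hf0 : ∀ w, f w 0 = T w := by
    intro w
    simp [hf, hE0, h1]
  have hfadd : ∀ w w' z, f (w + w') z = f w z + f w' z := by
    intro w w' z
    simp only [hf, mul_add, map_add]
  have hfsub : ∀ w w' z, f (w - w') z = f w z - f w' z := by
    intro w w' z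
    simp only [hf, mul_sub, map_sub]
  have hfalg : ∀ (c : ℂ) z, f (algebraMap ℂ A c) z = algebraMap ℂ B c := by
    intro c z
    simp only [hf, Algebra.algebraMap_eq_smul_one, mul_smul_comm, mul_one, map_smul]
    rw [Ring.inverse_mul_cancel _ (hGu z)]
  have hTf : ∀ w z, T (E z * w) = T (E z) * f w z := by
    intro w z
    simp only [hf]
    rw [← mul_assoc, Ring.mul_inverse_cancel _ (hGu z), one_mul]
  -- crude bound
  have hcrude : ∀ w z, SR (f w z) ‖w‖ := by
    intro w z
    apply SR.of_isUnit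
    intro μ hμ
    have hc : IsUnit (algebraMap ℂ A μ - w) := (SR.of_norm (le_refl ‖w‖)).isUnit_sub hμ
    have h2 : IsUnit (T (E z * (algebraMap ℂ A μ - w))) := hinv _ ((hEu z).mul hc)
    have h3 : algebraMap ℂ B μ - f w z =
        Ring.inverse (T (E z)) * T (E z * (algebraMap ℂ A μ - w)) := by
      rw [← hfalg μ z, ← hfsub]
    rw [h3]
    exact (hGu z).ringInverse.mul h2
  have hSR : ∀ w m z, 0 ≤ m → (SR (f w z) m ↔ SR (T w) m) := by
    intro w m z hm
    have h2 := liouville_SR_iff (hfd w) (norm_nonneg _) (hcrude w) hm z 0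
    rwa [hf0] at h2
  have hfsurj : ∀ z b, ∃ w, f w z = b := by
    intro z b
    obtain ⟨w', hw'⟩ := hs (T (E z) * b)
    refine ⟨E (-z) * w', ?_⟩
    simp only [hf]
    rw [← mul_assoc, hEE', one_mul, hw', ← mul_assoc, Ring.inverse_mul_cancel _ (hGu z), one_mul]
  -- the kernel
  have hker : ∀ y, T y = 0 → ∀ z, f y z = 0 := by
    intro y hy z
    apply zemanek_eq_zero hB
    intro c m hm
    obtain ⟨w, rfl⟩ := hfsurj z c
    rw [← hfadd, hSR _ _ _ hm, hSR _ _ _ hm, map_add, hy, zero_add]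
  have hkerE : ∀ y, T y = 0 → ∀ z, T (E z * y) = 0 := by
    intro y hy z
    rw [hTf, hker y hy z, mul_zero]
  have hkera : ∀ y, T y = 0 → T (a * y) = 0 := by
    intro y hy
    have h2 : HasDerivAt (fun z => T (E z * y)) (T (a * y)) 0 :=
      T.hasFDerivAt.comp_hasDerivAt 0 (hEa.mul_const y)
    have h3 : (fun z => T (E z * y)) = fun _ => 0 := by
      funext z; exact hkerE y hy z
    rw [h3] at h2
    exact h2.unique (hasDerivAt_const _ _)
  -- the operators
  obtain ⟨C₀, hC₀, hfac, hfacn⟩ := exists_factor T hs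
  set Ψ : ℂ → (A →L[ℂ] B) := fun z => (Lm (Ring.inverse (T (E z)))).comp (T.comp (Lm (E z))) with hΨ
  have hΨf : ∀ z y, Ψ z y = f y z := fun z y => rfl
  have hΨ' : HasDerivAt Ψ (T.comp (Lm a) - (Lm (T a)).comp T) 0 := by
    have hG' : HasDerivAt (fun z => T (E z)) (T a) 0 := T.hasFDerivAt.comp_hasDerivAt 0 hEa
    have hinvG' : HasDerivAt (fun z => Ring.inverse (T (E z))) (-(T a)) 0 := by
      have h2 : HasFDerivAt (Ring.inverse : B → B)
          (-ContinuousLinearMap.mulLeftRight ℂ B ↑(1 : Bˣ)⁻¹ ↑(1 : Bˣ)⁻¹) ((1 : Bˣ) : B) :=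
        hasFDerivAt_ringInverse (𝕜 := ℂ) (1 : Bˣ)
      have h3 : T (E 0) = ((1 : Bˣ) : B) := by rw [hE0, h1]; rfl
      rw [← h3] at h2
      have h4 := h2.comp_hasDerivAt (0 : ℂ) hG'
      refine h4.congr_deriv ?_
      simp [ContinuousLinearMap.mulLeftRight_apply]
    have h2 : HasDerivAt (fun z => Lm (Ring.inverse (T (E z)))) (Lm (-(T a))) 0 :=
      (Lm (B := B)).hasFDerivAt.comp_hasDerivAt 0 hinvG'
    have h3 : HasDerivAt (fun z => Lm (E z)) (Lm a) 0 :=
      (Lm (B := A)).hasFDerivAt.comp_hasDerivAt 0 hEa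
    have h4 := (hasDerivAt_const (0 : ℂ) T).clm_comp h3
    have h5 := h2.clm_comp h4
    refine h5.congr_deriv ?_
    ext y
    change -(T a) * T (E 0 * y) + Ring.inverse (T (E 0)) * ((0 : B) + T (a * y)) =
      T (a * y) - T a * T y
    rw [hE0, h1, one_mul, Ring.inverse_one, one_mul, zero_add, neg_mul]
    abel
  obtain ⟨D, hD⟩ := hfac (T.comp (Lm a) - (Lm (T a)).comp T) (fun y hy => by
    change T (a * y) - T a * T y = 0
    rw [hkera y hy, hy, mul_zero, sub_zero])
  have hSex : ∀ z, ∃ S : B →L[ℂ] B, ∀ y, S (T y) = Ψ z y := fun z =>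
    hfac (Ψ z) (fun y hy => by rw [hΨf]; exact hker y hy z)
  choose S hS using hSex
  have hSD : HasDerivAt S D 0 := by
    rw [hasDerivAt_iff_isLittleO]
    have h2 := hΨ'.isLittleO
    refine Asymptotics.IsBigO.trans_isLittleO (Asymptotics.IsBigO.of_bound C₀
      (Eventually.of_forall fun z => ?_)) h2
    have e : (S z - S 0 - (z - 0) • D).comp T =
        Ψ z - Ψ 0 - (z - 0) • (T.comp (Lm a) - (Lm (T a)).comp T) := by
      ext y
      change S z (T y) - S 0 (T y) - (z - 0) • D (T y) = Ψ z y - Ψ 0 y - (z - 0) •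
        (T.comp (Lm a) - (Lm (T a)).comp T) y
      rw [hS, hS, hD]
    rw [← e]
    exact hfacn _
  have hS0 : S 0 = 1 := by
    ext b
    obtain ⟨y, rfl⟩ := hs b
    rw [hS, hΨf, hf0]
    rfl
  have hSG : ∀ z, InG (S z) := by
    intro z
    refine ⟨?_, ?_, fun x m hm => ?_⟩
    · have h2 := hS z 1
      rw [h1] at h2
      rw [h2, hΨf]
      simp only [hf]
      rw [mul_one, Ring.inverse_mul_cancel _ (hGu z)]
    · rw [ContinuousLinearMap.isUnit_iff_bijective]
      refine ⟨?_, ?_⟩
      · rw [injective_iff_map_eq_zero]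
        intro b hb
        obtain ⟨y, rfl⟩ := hs b
        rw [hS, hΨf] at hb
        have h2 : T (E z * y) = 0 := by rw [hTf, hb, mul_zero]
        have h3 := hkerE _ h2 (-z)
        rwa [← mul_assoc, hE'E, one_mul] at h3
      · intro b
        obtain ⟨w, hw⟩ := hfsurj z b
        exact ⟨T w, by rw [hS, hΨf, hw]⟩
    · obtain ⟨y, rfl⟩ := hs x
      rw [hS, hΨf]
      exact hSR y m z hm
  have hDg : D ∈ gLie B := mem_gLie_of_hasDerivAt hSD hS0 (Eventually.of_forall hSG)
  refine ⟨D, fun y => ?_, gLie_derivation hB hDg⟩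
  rw [hD]
  rfl

theorem two_torsion (x : B) (h : x + x = 0) : x = 0 := by
  have : (2 : ℂ) • x = 0 := by rw [two_smul]; exact h
  rcases smul_eq_zero.mp this with h | h
  · norm_num at h
  · exact h

/-- semisimple rings are semiprime -/
theorem semiprime_of_jacobson (hB : (⊥ : Ideal B).jacobson = ⊥) (x : B)
    (h : ∀ y, x * y * x = 0) : x = 0 := by
  have h1 : x ∈ (⊥ : Ideal B).jacobson := by
    rw [Ideal.jacobson, Submodule.mem_sInf]
    rintro J ⟨_, hJ⟩
    by_contra hx
    -- `B x + J = B`, hence `1 = k x + j`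
    obtain ⟨k, hk⟩ := exists_mul_sub_mem hJ hx 1
    -- then `x = x k x + x j = x j`
    have h2 : x * (1 - k * x) = x := by
      rw [mul_sub, mul_one, ← mul_assoc, h, sub_zero]
    apply hx
    rw [← h2]
    exact Ideal.mul_mem_left J _ hk
  rw [hB] at h1
  exact h1

/-- **Main theorem**: the square is preserved. -/
theorem map_sq (hB : (⊥ : Ideal B).jacobson = ⊥) (T : A →ₗ[ℂ] B) (h1 : T 1 = 1)
    (hs : Function.Surjective T)
    (hinv : ∀ x, IsUnit x → IsUnit (T x)) (a : A) : T (a * a) = T a * T a := by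
  let T' : A →L[ℂ] B := ⟨T, continuous_of_inv hB h1 hs hinv⟩
  have hT' : ∀ x, T' x = T x := fun _ => rfl
  have hD : ∀ a : A, ∃ D : B →L[ℂ] B, (∀ y, D (T y) = T (a * y) - T a * T y) ∧
      ∀ x y, D (x * y) = D x * y + x * D y := fun a => exists_D hB T' h1 hs hinv a
  obtain ⟨D, hDT, hDder⟩ := hD a
  obtain ⟨D₂, hD₂T, hD₂der⟩ := hD (a * a)
  set u := T a with hu
  have hTaa : T (a * a) = u * u + D u := by rw [hu, hDT]; abel
  -- formula for `D₂`
  have hD₂ : ∀ v, D₂ v = u * D v + u * D v + D (D v) := by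
    intro v
    obtain ⟨y, rfl⟩ := hs v
    have e1 : T (a * (a * y)) = u * T (a * y) + D (T (a * y)) := by rw [hDT]; abel
    have e2 : T (a * y) = u * T y + D (T y) := by rw [hDT]; abel
    have e3 := hD₂T y
    rw [mul_assoc, e1, e2, map_add, hDder, hTaa] at e3
    rw [e3]
    noncomm_ring
  -- consequence of the Leibniz rule for `D₂`
  have hrel : ∀ v w, (u * v - v * u + D v) * D w = 0 := by
    intro v w
    have e := hD₂der v w
    rw [hD₂, hD₂, hD₂, hDder v w, map_add, hDder, hDder] at e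
    apply two_torsion
    rw [← sub_eq_zero] at e
    rw [← e]
    noncomm_ring
  have hrel' : ∀ z w, D u * z * D w = 0 := by
    intro z w
    have e1 := hrel u (z * w)
    have e2 := hrel u z
    rw [sub_self, zero_add] at e1 e2
    rw [hDder, mul_add, ← mul_assoc, e2, zero_mul, zero_add] at e1
    rw [mul_assoc]; exact e1
  have hDu : D u = 0 := semiprime_of_jacobson hB _ (fun z => hrel' z u)
  rw [hTaa, hDu, add_zero]

/-- **Main theorem**: Jordan epimorphism. -/
theorem map_jordan (hB : (⊥ : Ideal B).jacobson = ⊥) (T : A →ₗ[ℂ] B) (h1 : T 1 = 1)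
    (hs : Function.Surjective T)
    (hinv : ∀ x, IsUnit x → IsUnit (T x)) (a b : A) :
    T (a * b + b * a) = T a * T b + T b * T a := by
  have h := map_sq hB T h1 hs hinv (a + b)
  have e : (a + b) * (a + b) = a * a + b * b + (a * b + b * a) := by noncomm_ring
  rw [e, map_add T (a * a + b * b), map_add T (a * a), map_sq hB T h1 hs hinv a,
    map_sq hB T h1 hs hinv b, map_add T a b] at h
  have h3 : T (a * b + b * a) = (T a + T b) * (T a + T b) - (T a * T a + T b * T b) := by
    rw [← h]; abel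
  rw [h3]
  noncomm_ring

end Pool.Agent.Lib.Kaplansky48
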